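import Pool.Agent.H.MP_e16c79_al.SP.Ideal

/-!
# MP_e16c79_al: special Jordan rings of bounded nil index, from a Jordan ring to the data
-/

set_option autoImplicit false

namespace Pool.Agent.H.MP_e16c79_al.SP

universe u v

theorem TI_sat {R : Type u} [Ring R] (M : ℤ) {I : AddSubgroup R} (h : TI I) : TI (sat M I) where
  left := by
    rintro r w ⟨k, hk⟩
    refine ⟨k, ?_⟩
    rw [← mul_smul_comm]
    exact h.left r _ hk
  right := by
    rintro w ⟨k, hk⟩ r
    refine ⟨k, ?_⟩
    rw [← smul_mul_assoc]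
    exact h.right _ hk r

theorem TI_bot {R : Type u} [Ring R] : TI (⊥ : AddSubgroup R) where
  left := by
    intro r w hw
    rw [AddSubgroup.mem_bot] at hw ⊢
    rw [hw, mul_zero]
  right := by
    intro w hw r
    rw [AddSubgroup.mem_bot] at hw ⊢
    rw [hw, zero_mul]

/-- a ring which contains `A` -/
structure Hu (A : Type u) [NonUnitalRing A] (R : Type u) [Ring R] where
  i : A →+ R
  mul : ∀ a b, i (a * b) = i a * i b
  inj : Function.Injective i

/-- the unital hull -/
def huU (A : Type u) [NonUnitalRing A] : Hu A (Unitization ℤ A) where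
  i :=
    { toFun := fun a => (a : Unitization ℤ A)
      map_zero' := Unitization.inr_zero ℤ
      map_add' := fun a b => Unitization.inr_add ℤ a b }
  mul := fun a b => Unitization.inr_mul ℤ a b
  inj := Unitization.inr_injective

variable {A : Type u} [NonUnitalRing A] {R : Type u} [Ring R] (H : Hu A R)

variable (R) in
/-- the torsion ideal -/
abbrev TU (M : ℤ) : AddSubgroup R := sat M ⊥

variable (R) in
theorem TU_TI (M : ℤ) : TI (TU R M) := TI_sat M TI_bot

variable (R) in
/-- the quotient by the torsion -/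
abbrev QU (M : ℤ) := Q (TU R M) (TU_TI R M)

/-- the map to the quotient -/
def io (M : ℤ) : A →+ QU R M :=
  ((pr (TU R M) (TU_TI R M)) : R →+ QU R M).comp H.i

theorem io_mul (M : ℤ) (a b : A) :
    io H M (a * b) = io H M a * io H M b := by
  show pr (TU R M) (TU_TI R M) (H.i (a * b)) = _
  rw [H.mul, map_mul]
  rfl

theorem io_zero {M : ℤ} {a : A} (h : io H M a = 0) : ∃ k : ℕ, (M ^ k) • a = 0 := by
  have h1 : H.i a ∈ TU R M := pr_zero.1 h
  obtain ⟨k, hk⟩ := h1
  refine ⟨k, ?_⟩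
  rw [AddSubgroup.mem_bot, ← map_zsmul] at hk
  exact H.inj (by rw [hk, map_zero])

theorem QU_tf {M : ℤ} {q : QU R M} (h : M • q = 0) : q = 0 := by
  obtain ⟨r, rfl⟩ := pr_surj (TU R M) (TU_TI R M) q
  rw [← map_zsmul, pr_zero] at h
  rw [pr_zero]
  exact sat_sat 1 (by rw [pow_one]; exact h)

section main

variable {J : Type v} [NonUnitalNonAssocCommRing J]

/-- the subring generated by the image -/
abbrev SR (M : ℤ) (φ : J →+ A) : Subring (QU R M) :=
  Subring.closure ((((io H M).comp φ).range : AddSubgroup (QU R M)) : Set (QU R M))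

/-- the group of the image -/
def J2 (M : ℤ) (φ : J →+ A) : AddSubgroup (SR H M φ) :=
  (((io H M).comp φ).range).comap ((SR H M φ).subtype : SR H M φ →+ QU R M)

/-- the map to the subring -/
def ps (M : ℤ) (φ : J →+ A) : J →+ SR H M φ where
  toFun := fun x => ⟨io H M (φ x), Subring.subset_closure ⟨x, rfl⟩⟩
  map_zero' := by
    refine Subtype.ext ?_
    show io H M (φ 0) = 0
    rw [map_zero, map_zero]
  map_add' := by
    intro x y
    refine Subtype.ext ?_
    show io H M (φ (x + y)) = io H M (φ x) + io H M (φ y)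
    rw [map_add, map_add]

theorem ps_mem (M : ℤ) (φ : J →+ A) (x : J) : ps H M φ x ∈ J2 H M φ := ⟨x, rfl⟩

theorem mem_J2 {M : ℤ} {φ : J →+ A} {s : SR H M φ} (hs : s ∈ J2 H M φ) : ∃ x, s = ps H M φ x := by
  obtain ⟨x, hx⟩ := hs
  exact ⟨x, Subtype.ext hx.symm⟩

theorem ps_jor (M : ℤ) {φ : J →+ A} (hmul : ∀ x y, 2 • φ (x * y) = φ x * φ y + φ y * φ x)
    (x y : J) : (2 : ℤ) • ps H M φ (x * y) = ps H M φ x * ps H M φ y + ps H M φ y * ps H M φ x := by
  refine Subtype.ext ?_
  show (2 : ℤ) • io H M (φ (x * y)) = io H M (φ x) * io H M (φ y) + io H M (φ y) * io H M (φ x)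
  have h1 := congrArg (io H M) (hmul x y)
  rw [map_nsmul, map_add, io_mul, io_mul] at h1
  rw [← h1, two_smul, two_nsmul]

theorem SR_tf {M : ℤ} {φ : J →+ A} {s : SR H M φ} (h : M • s = 0) : s = 0 := by
  refine Subtype.ext ?_
  exact QU_tf (congrArg (fun s : SR H M φ => (s : QU R M)) h)

theorem J2_data (n : ℕ) (hn : 1 ≤ n) (hnil : ∀ a : J, (fun x => a * x)^[n - 1] a = 0)
    (φ : J →+ A) (hmul : ∀ x y, 2 • φ (x * y) = φ x * φ y + φ y * φ x) :
    SData n (J2 H ((2 * n.factorial : ℕ) : ℤ) φ) := by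
  set M : ℤ := ((2 * n.factorial : ℕ) : ℤ) with hM
  have htwo : ∀ q : SR H M φ, (2 : ℤ) • q = 0 → q = 0 := by
    intro q hq
    refine SR_tf H ?_
    have e : M = (n.factorial : ℤ) * 2 := by
      rw [hM]
      push_cast
      ring
    have e1 : M • q = ((n.factorial : ℤ) * 2) • q := by rw [← e]
    rw [e1, mul_smul, hq, smul_zero]
  have hpow : ∀ (k : ℕ) (a : J), ps H M φ ((fun x => a * x)^[k] a) = (ps H M φ a) ^ (k + 1) := by
    intro k a
    induction k with
    | zero => simp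
    | succ k ih =>
      rw [Function.iterate_succ_apply']
      rw [← sub_eq_zero]
      refine htwo _ ?_
      rw [smul_sub, ps_jor H M hmul, ih, two_smul, ← pow_succ, ← pow_succ', sub_self]
  constructor
  · intro x hx y hy
    obtain ⟨a, rfl⟩ := mem_J2 H hx
    obtain ⟨b, rfl⟩ := mem_J2 H hy
    exact ⟨_, ps_mem H M φ (a * b), ps_jor H M hmul a b⟩
  · intro x hx
    obtain ⟨a, rfl⟩ := mem_J2 H hx
    have h1 := hpow (n - 1) a
    rw [hnil, map_zero, Nat.sub_add_cancel hn] at h1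
    exact h1.symm
  · intro r hr
    exact SR_tf H hr

theorem closure_pre {S : Type u} [Ring S] (k : Set S) :
    Subring.closure (((↑) : Subring.closure k → S) ⁻¹' k) = ⊤ := by
  refine eq_top_iff.2 fun x _ => ?_
  obtain ⟨x, hx⟩ := x
  induction hx using Subring.closure_induction with
  | mem x hx => exact Subring.subset_closure hx
  | zero => exact Subring.zero_mem _
  | one => exact Subring.one_mem _
  | add x y hx hy ix iy => exact Subring.add_mem _ (ix trivial) (iy trivial)
  | neg x hx ix => exact Subring.neg_mem _ (ix trivial)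
  | mul x y hx hy ix iy => exact Subring.mul_mem _ (ix trivial) (iy trivial)

theorem J2_gen (M : ℤ) (φ : J →+ A) : Subring.closure ((J2 H M φ : AddSubgroup (SR H M φ)) :
    Set (SR H M φ)) = ⊤ :=
  closure_pre ((((io H M).comp φ).range : AddSubgroup (QU R M)) : Set (QU R M))

include H in
/-- THE THEOREM. -/
theorem fin_hu (hR : RStmt.{u}) (n : ℕ) (hn : 1 ≤ n)
    (hnil : ∀ a : J, (fun x => a * x)^[n - 1] a = 0)
    (φ : J →+ A) (hmul : ∀ x y, 2 • φ (x * y) = φ x * φ y + φ y * φ x)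
    (D : ℕ → AddSubgroup J) (_hD0 : D 0 = ⊤)
    (hDs : ∀ i, D (i + 1) = AddSubgroup.closure {x : J | ∃ a ∈ D i, ∃ b ∈ D i, x = a * b}) :
    (∀ x ∈ D (n * Nat.clog 2 (n + 2)), ∃ k : ℕ, ((2 * n.factorial) ^ k) • φ x = 0) ∧
    ((∀ a : J, (2 * n.factorial) • a = 0 → a = 0) → Function.Injective φ →
      D (n * Nat.clog 2 (n + 2)) = ⊥) := by
  set M : ℤ := ((2 * n.factorial : ℕ) : ℤ) with hM
  have hmain := main_ind hR n (SR H M φ) (J2 H M φ) hn (J2_data H n hn hnil φ hmul) (J2_gen H M φ)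
  have key : ∀ i, ∀ x ∈ D i, ps H M φ x ∈ Dj (J2 H M φ) i := by
    intro i
    induction i with
    | zero => exact fun x _ => ps_mem H M φ x
    | succ i ih =>
      intro x hx
      rw [hDs] at hx
      have h1 : AddSubgroup.closure {x : J | ∃ a ∈ D i, ∃ b ∈ D i, x = a * b} ≤
          (Dj (J2 H M φ) (i + 1)).comap (ps H M φ) := by
        refine (AddSubgroup.closure_le _).2 ?_
        rintro y ⟨a, ha, b, hb, rfl⟩
        exact AddSubgroup.subset_closure ⟨ps H M φ a, ih a ha, ps H M φ b, ih b hb, ps_jor H M hmul a b⟩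
      exact h1 hx
  have hbot : ∀ j, Dj (J2 H M φ) (kk n + j) = ⊥ := by
    intro j
    induction j with
    | zero => exact hmain
    | succ j ih =>
      show jsq (Dj (J2 H M φ) (kk n + j)) = ⊥
      rw [ih, eq_bot_iff]
      refine (AddSubgroup.closure_le _).2 ?_
      rintro z ⟨x, hx, y, hy, e⟩
      rw [AddSubgroup.mem_bot] at hx hy
      rw [hx, hy, mul_zero, add_zero] at e
      exact (J2_data H n hn hnil φ hmul).two e
  have hfin : ∀ x ∈ D (n * Nat.clog 2 (n + 2)), ∃ k : ℕ, ((2 * n.factorial) ^ k) • φ x = 0 := by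
    intro x hx
    have h1 := key _ x hx
    have e : n * Nat.clog 2 (n + 2) = kk n + (n * Nat.clog 2 (n + 2) - kk n) := by
      have := kk_le n
      omega
    rw [e, hbot, AddSubgroup.mem_bot] at h1
    have h2 : io H M (φ x) = 0 := congrArg (fun s : SR H M φ => (s : QU R M)) h1
    obtain ⟨k, hk⟩ := io_zero H h2
    refine ⟨k, ?_⟩
    rw [hM, ← Nat.cast_pow, natCast_zsmul] at hk
    exact hk
  refine ⟨hfin, ?_⟩
  intro htf hinj
  rw [eq_bot_iff]
  intro x hx
  obtain ⟨k, hk⟩ := hfin x hx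
  rw [← map_nsmul] at hk
  have h3 : ((2 * n.factorial) ^ k) • x = 0 := hinj (by rw [hk, map_zero])
  have h4 : ∀ k : ℕ, ((2 * n.factorial) ^ k) • x = 0 → x = 0 := by
    intro k
    induction k with
    | zero =>
      intro h
      simpa using h
    | succ k ih =>
      intro h
      refine ih (htf _ ?_)
      rw [← mul_smul, ← pow_succ']
      exact h
  exact h4 k h3

end main

/-- THE THEOREM. -/
theorem fin {J : Type v} [NonUnitalNonAssocCommRing J] {A : Type u} [NonUnitalRing A]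
    (hR : RStmt.{u}) (n : ℕ) (hn : 1 ≤ n)
    (hnil : ∀ a : J, (fun x => a * x)^[n - 1] a = 0)
    (φ : J →+ A) (hmul : ∀ x y, 2 • φ (x * y) = φ x * φ y + φ y * φ x)
    (D : ℕ → AddSubgroup J) (hD0 : D 0 = ⊤)
    (hDs : ∀ i, D (i + 1) = AddSubgroup.closure {x : J | ∃ a ∈ D i, ∃ b ∈ D i, x = a * b}) :
    (∀ x ∈ D (n * Nat.clog 2 (n + 2)), ∃ k : ℕ, ((2 * n.factorial) ^ k) • φ x = 0) ∧
    ((∀ a : J, (2 * n.factorial) • a = 0 → a = 0) → Function.Injective φ →
      D (n * Nat.clog 2 (n + 2)) = ⊥) :=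
  fin_hu (huU A) hR n hn hnil φ hmul D hD0 hDs

end Pool.Agent.H.MP_e16c79_al.SP
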