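import Pool.Agent.H.MP_e16c79_al.SP.CertR
import Pool.Agent.H.MP_e16c79_al.SP.Fin

/-!
# MP_e16c79_al: the relation between five powers
-/

set_option autoImplicit false

namespace Pool.Agent.H.MP_e16c79_al.SP

open Finset

universe u

section blocks

variable {R : Type u} [Ring R] {n : ℕ} {X : Fin 5 → R}

/-- the value of a word in the five blocks -/
theorem ev_blocks (hn : 1 ≤ n) (w : List ℕ) (h3 : ∀ c ∈ w, c % 4 = 3)
    (hall : ∀ k : Fin 5, ∃ c ∈ w, ix c = k) :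
    ev n X w = (w.map (fun c => X (ix c) ^ (n - 1))).prod := by
  unfold ev
  rw [sum_eq_single (fun _ : Fin 5 => (⟨0, hn⟩ : Fin n))]
  · unfold pw
    congr 1
    refine List.map_congr_left fun c hc => ?_
    unfold val
    have := h3 c hc
    rw [if_neg (by omega), if_neg (by omega), if_pos rfl]
  · intro e _ he
    have h1 : ∃ k, e k ≠ ⟨0, hn⟩ := by
      by_contra h2
      push_neg at h2
      exact he (funext h2)
    obtain ⟨k, hk⟩ := h1
    obtain ⟨c, hc, hck⟩ := hall k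
    unfold pw
    refine List.prod_eq_zero (List.mem_map.2 ⟨c, hc, ?_⟩)
    unfold val
    have := h3 c hc
    rw [if_neg (by omega), if_neg (by omega), hck, if_neg (fun h' => hk (Fin.ext h'))]
  · intro h
    exact absurd (mem_univ _) h

/-- the left relation -/
theorem rleft {J : AddSubgroup R} (h : SData n J) (hn : 3 ≤ n) {x1 x2 x3 x4 x5 : R} (h1 : x1 ∈ J)
    (h2 : x2 ∈ J) (h3 : x3 ∈ J) (h4 : x4 ∈ J) (h5 : x5 ∈ J) :
    x1 ^ (n - 1) * (x2 ^ (n - 1) * x3 ^ (n - 1) - x3 ^ (n - 1) * x2 ^ (n - 1)) * x4 ^ (n - 1) *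
        x5 ^ (n - 1) = 0 := by
  set X : Fin 5 → R := ![x1, x2, x3, x4, x5] with hX
  have hXJ : ∀ k, X k ∈ J := by
    intro k
    fin_cases k
    · exact h1
    · exact h2
    · exact h3
    · exact h4
    · exact h5
  have k1 := cR_sem h (by omega) hXJ
  have e1 : dec 12 (326751793 / 16) = [3, 11, 7, 15, 19] := by decide
  have e2 : dec 12 (326815281 / 16) = [3, 7, 11, 15, 19] := by decide
  have b1 : ev n X [3, 11, 7, 15, 19] =
      x1 ^ (n - 1) * x3 ^ (n - 1) * x2 ^ (n - 1) * x4 ^ (n - 1) * x5 ^ (n - 1) := by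
    rw [ev_blocks (by omega) _ (by decide) (by decide)]
    simp only [List.map_cons, List.map_nil, List.prod_cons, List.prod_nil, mul_one]
    show x1 ^ (n - 1) * (x3 ^ (n - 1) * (x2 ^ (n - 1) * (x4 ^ (n - 1) * x5 ^ (n - 1)))) = _
    simp only [mul_assoc]
  have b2 : ev n X [3, 7, 11, 15, 19] =
      x1 ^ (n - 1) * x2 ^ (n - 1) * x3 ^ (n - 1) * x4 ^ (n - 1) * x5 ^ (n - 1) := by
    rw [ev_blocks (by omega) _ (by decide) (by decide)]
    simp only [List.map_cons, List.map_nil, List.prod_cons, List.prod_nil, mul_one]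
    show x1 ^ (n - 1) * (x2 ^ (n - 1) * (x3 ^ (n - 1) * (x4 ^ (n - 1) * x5 ^ (n - 1)))) = _
    simp only [mul_assoc]
  have s1 : ∀ j N m : ℕ, N / 16 = m → N % 16 = j →
      sk n X N = ((n : ℤ) ^ j) • ev n X (dec 12 m) := by
    intro j N m h1 h2
    unfold sk
    rw [h1, h2]
  unfold cRS44 at k1
  simp only [sem] at k1
  rw [s1 1 326751793 (326751793 / 16) rfl rfl, s1 2 326751794 (326751793 / 16) rfl rfl,
    s1 3 326751795 (326751793 / 16) rfl rfl, s1 1 326815281 (326815281 / 16) rfl rfl,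
    s1 2 326815282 (326815281 / 16) rfl rfl, s1 3 326815283 (326815281 / 16) rfl rfl,
    e1, e2, b1, b2] at k1
  set u := x1 ^ (n - 1) * x3 ^ (n - 1) * x2 ^ (n - 1) * x4 ^ (n - 1) * x5 ^ (n - 1) with hu
  set v := x1 ^ (n - 1) * x2 ^ (n - 1) * x3 ^ (n - 1) * x4 ^ (n - 1) * x5 ^ (n - 1) with hv
  have k2 : (2 : ℤ) • ((2 : ℤ) • ((2 : ℤ) • ((n : ℤ) • (((n - 1 : ℕ) : ℤ) •
      (((n - 2 : ℕ) : ℤ) • (v - u)))))) = 0 := by
    rw [← k1]
    have e3 : ((n - 1 : ℕ) : ℤ) = n - 1 := by omega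
    have e4 : ((n - 2 : ℕ) : ℤ) = n - 2 := by omega
    rw [e3, e4]
    module
  have k3 : v - u = 0 :=
    h.small (d := n - 2) (by omega) (by omega) (h.small (d := n - 1) (by omega) (by omega)
      (h.small (d := n) (by omega) le_rfl (h.two (h.two (h.two k2)))))
  rw [← k3, hu, hv]
  noncomm_ring

/-- the data for the opposite ring -/
theorem op_data {J : AddSubgroup R} (h : SData n J) :
    SData n (J.map (MulOpposite.opAddEquiv : R ≃+ Rᵐᵒᵖ).toAddMonoidHom) where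
  jor := by
    rintro _ ⟨x, hx, rfl⟩ _ ⟨y, hy, rfl⟩
    obtain ⟨z, hz, e⟩ := h.jor x hx y hy
    refine ⟨MulOpposite.op z, ⟨z, hz, rfl⟩, ?_⟩
    show (2 : ℤ) • MulOpposite.op z = MulOpposite.op x * MulOpposite.op y +
      MulOpposite.op y * MulOpposite.op x
    rw [← MulOpposite.op_mul, ← MulOpposite.op_mul, ← MulOpposite.op_add, add_comm (y * x), ← e,
      MulOpposite.op_smul]
  nil := by
    rintro _ ⟨x, hx, rfl⟩
    show (MulOpposite.op x) ^ n = 0
    rw [← MulOpposite.op_pow, h.nil x hx, MulOpposite.op_zero]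
  tf := by
    intro r hr
    have h1 : ((2 * n.factorial : ℕ) : ℤ) • r.unop = 0 := by
      rw [← MulOpposite.unop_smul, hr, MulOpposite.unop_zero]
    have h2 := h.tf _ h1
    rw [← MulOpposite.op_unop r, h2, MulOpposite.op_zero]

end blocks

/-- THE RELATION BETWEEN FIVE POWERS. -/
theorem rstmt : RStmt.{u} := by
  intro R _ n J hn h x1 h1 x2 h2 x3 h3 x4 h4 x5 h5
  refine ⟨rleft h hn h1 h2 h3 h4 h5, ?_⟩
  have hop : ∀ x ∈ J, MulOpposite.op x ∈
      J.map (MulOpposite.opAddEquiv : R ≃+ Rᵐᵒᵖ).toAddMonoidHom := fun x hx => ⟨x, hx, rfl⟩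
  have k1 := rleft (op_data h) hn (hop _ h5) (hop _ h4) (hop _ h3) (hop _ h2) (hop _ h1)
  have k2 := congrArg MulOpposite.unop k1
  simp only [MulOpposite.unop_mul, MulOpposite.unop_sub, MulOpposite.unop_pow,
    MulOpposite.unop_op, MulOpposite.unop_zero] at k2
  rw [← k2]
  noncomm_ring

/-- THE THEOREM for special Jordan rings. -/
theorem special {J : Type*} [NonUnitalNonAssocCommRing J] {A : Type u} [NonUnitalRing A]
    (n : ℕ) (hn : 1 ≤ n)
    (hnil : ∀ a : J, (fun x => a * x)^[n - 1] a = 0)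
    (φ : J →+ A) (hmul : ∀ x y, 2 • φ (x * y) = φ x * φ y + φ y * φ x)
    (D : ℕ → AddSubgroup J) (hD0 : D 0 = ⊤)
    (hDs : ∀ i, D (i + 1) = AddSubgroup.closure {x : J | ∃ a ∈ D i, ∃ b ∈ D i, x = a * b}) :
    (∀ x ∈ D (n * Nat.clog 2 (n + 2)), ∃ k : ℕ, ((2 * n.factorial) ^ k) • φ x = 0) ∧
    ((∀ a : J, (2 * n.factorial) • a = 0 → a = 0) → Function.Injective φ →
      D (n * Nat.clog 2 (n + 2)) = ⊥) :=
  fin rstmt n hn hnil φ hmul D hD0 hDs

end Pool.Agent.H.MP_e16c79_al.SP
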