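import Pool.Agent.H.MP_e16c79_al.SP.Chord

/-!
# MP_e16c79_al: a checker for linear combinations of relations between words
-/

set_option autoImplicit false

namespace Pool.Agent.H.MP_e16c79_al.SP

open Finset

variable {R : Type*} [Ring R]

/-- membership -/
def mb (c : ℕ) : List ℕ → Bool
  | [] => false
  | a :: l => bif Nat.beq a c then true else mb c l

theorem mb_iff {c : ℕ} {l : List ℕ} : mb c l = true ↔ c ∈ l := by
  induction l with
  | nil => simp [mb]
  | cons a l ih =>
    unfold mb
    by_cases h : a = c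
    · subst h
      rw [beq_t, cond_true]
      simp
    · rw [beq_f h, cond_false, ih, List.mem_cons]
      constructor
      · exact fun h' => Or.inr h'
      · rintro (h' | h')
        · exact absurd h'.symm h
        · exact h'

/-- all letters satisfy `f` -/
def al (f : ℕ → Bool) : List ℕ → Bool
  | [] => true
  | a :: l => bif f a then al f l else false

theorem al_iff {f : ℕ → Bool} {l : List ℕ} : al f l = true ↔ ∀ c ∈ l, f c = true := by
  induction l with
  | nil => simp [al]
  | cons a l ih =>
    unfold al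
    cases h : f a with
    | true => simp [h, ih]
    | false => simp [h]

/-- A relation: the coefficient `sum c n ^ j` over the pairs `(j, c)`, left word, index of `x`,
interior, type of the Jordan polynomial, right word, swaps. -/
structure Rl where
  c : List (ℕ × ℤ)
  p : List ℕ
  k : ℕ
  u : List ℕ
  ty : ℕ
  s : List ℕ
  m : List (List ℕ)

/-- the word of one term -/
def wd (r : Rl) (t : List ℕ) : List ℕ := r.p ++ (4 * r.k + 1) :: (t ++ (4 * r.k + 2) :: r.s)

/-- closing the split letters which are in `u` -/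
def bl (u : List ℕ) (c : ℕ) : ℕ :=
  bif Nat.beq (c % 4) 2 then (bif mb (c - 1) u then c + 1 else c) else c

/-- the boundary word -/
def bd (r : Rl) : List ℕ := r.p.map (bl r.u) ++ (4 * r.k + 3) :: r.s.map (bl r.u)

/-- good letters -/
def okw (k : ℕ) (w : List ℕ) : Bool :=
  al (fun c => bif Nat.blt c 20 then (bif Nat.beq (c % 4) 0 then false else
    (bif Nat.beq (c / 4) k then false else true)) else false) w

theorem okw_iff {k : ℕ} {w : List ℕ} :
    okw k w = true ↔ ∀ c ∈ w, c < 20 ∧ c % 4 ≠ 0 ∧ c / 4 ≠ k := by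
  unfold okw
  rw [al_iff]
  refine forall_congr' fun c => forall_congr' fun _ => ?_
  by_cases h1 : c < 20
  · rw [show Nat.blt c 20 = true from Nat.ble_eq_true_of_le h1, cond_true]
    by_cases h2 : c % 4 = 0
    · rw [h2, beq_t, cond_true]
      simp
    · rw [beq_f h2, cond_false]
      by_cases h3 : c / 4 = k
      · rw [h3, beq_t, cond_true]
        simp
      · rw [beq_f h3, cond_false]
        simp [h1, h2, h3]
  · have : Nat.blt c 20 = false := by
      refine Bool.eq_false_iff.2 fun h => h1 ?_
      exact Nat.le_of_ble_eq_true h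
    rw [this, cond_false]
    simp [h1]

/-- the relation has a boundary term -/
def isB (r : Rl) : Bool :=
  al (fun c => bif Nat.beq (c % 4) 1 then (bif mb (c + 1) r.p then true else mb (c + 1) r.s)
    else false) r.u

theorem isB_iff {r : Rl} : isB r = true ↔
    ∀ c ∈ r.u, c % 4 = 1 ∧ (c + 1 ∈ r.p ∨ c + 1 ∈ r.s) := by
  unfold isB
  rw [al_iff]
  refine forall_congr' fun c => forall_congr' fun _ => ?_
  by_cases h1 : c % 4 = 1
  · rw [h1, beq_t, cond_true]
    by_cases h2 : c + 1 ∈ r.p
    · rw [mb_iff.2 h2, cond_true]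
      simp [h2]
    · rw [Bool.eq_false_iff.2 fun h => h2 (mb_iff.1 h), cond_false, mb_iff]
      simp [h2]
  · rw [beq_f h1, cond_false]
    simp [h1]

/-- the relation has no boundary term -/
def noB (r : Rl) : Bool :=
  bif al (fun c => bif Nat.beq (c % 4) 3 then false else
    (bif Nat.beq (c % 4) 1 then (bif mb (c + 1) r.u then false else true) else true)) r.u
  then false else true

theorem noB_iff {r : Rl} : noB r = true ↔ ∃ c ∈ r.u, c % 4 = 3 ∨ (c % 4 = 1 ∧ c + 1 ∈ r.u) := by
  unfold noB
  have h : al (fun c => bif Nat.beq (c % 4) 3 then false else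
    (bif Nat.beq (c % 4) 1 then (bif mb (c + 1) r.u then false else true) else true)) r.u = true ↔
      ∀ c ∈ r.u, ¬ (c % 4 = 3 ∨ (c % 4 = 1 ∧ c + 1 ∈ r.u)) := by
    rw [al_iff]
    refine forall_congr' fun c => forall_congr' fun _ => ?_
    by_cases h1 : c % 4 = 3
    · rw [h1, beq_t, cond_true]
      simp
    · rw [beq_f h1, cond_false]
      by_cases h2 : c % 4 = 1
      · rw [h2, beq_t, cond_true]
        by_cases h3 : c + 1 ∈ r.u
        · rw [mb_iff.2 h3, cond_true]
          simp [h3]
        · rw [Bool.eq_false_iff.2 fun h => h3 (mb_iff.1 h), cond_false]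
          simp [h3]
      · rw [beq_f h2, cond_false]
        simp [h1, h2]
  by_cases h1 : ∀ c ∈ r.u, ¬ (c % 4 = 3 ∨ (c % 4 = 1 ∧ c + 1 ∈ r.u))
  · rw [h.2 h1, cond_true]
    constructor
    · intro h'
      exact absurd h' (by simp)
    · rintro ⟨c, hc, h2⟩
      exact absurd h2 (h1 c hc)
  · rw [Bool.eq_false_iff.2 fun h' => h1 (h.1 h'), cond_false]
    push_neg at h1
    obtain ⟨c, hc, h2⟩ := h1
    constructor
    · intro _
      refine ⟨c, hc, ?_⟩
      by_contra h3
      push_neg at h3
      tauto
    · intro _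
      rfl

section sound

variable {n : ℕ} {X : Fin 5 → R}

theorem forms_mem {u t : List ℕ} {ty : ℕ} (ht : t ∈ forms u ty) : ∀ c ∈ t, c ∈ u := by
  match u, ty with
  | [], _ =>
    simp [forms] at ht
    subst ht
    simp
  | [a], _ =>
    simp [forms] at ht
    subst ht
    simp
  | [a, b], _ =>
    simp [forms] at ht
    rcases ht with rfl | rfl <;> simp
  | [a, b, c], _ =>
    simp [forms] at ht
    rcases ht with rfl | rfl <;> simp
  | [a, b, c, d], 0 =>
    simp [forms] at ht
    rcases ht with rfl | rfl | rfl | rfl <;> simp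
  | [a, b, c, d], t + 1 =>
    simp [forms] at ht
    rcases ht with rfl | rfl | rfl | rfl <;> simp
  | [a, b, c, d, f], 0 =>
    simp [forms] at ht
    rcases ht with rfl | rfl | rfl | rfl <;> simp
  | [a, b, c, d, f], t + 1 =>
    simp [forms] at ht
    rcases ht with rfl | rfl | rfl | rfl <;> simp
  | _ :: _ :: _ :: _ :: _ :: _ :: _, _ =>
    simp [forms] at ht

theorem list_sum_comm {ι α : Type*} [Fintype ι] (l : List α) (g : α → ι → R) :
    (l.map (fun t => ∑ e, g t e)).sum = ∑ e, (l.map (fun t => g t e)).sum := by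
  induction l with
  | nil => simp
  | cons a l ih =>
    rw [List.map_cons, List.sum_cons, ih, ← sum_add_distrib]
    refine sum_congr rfl fun e _ => ?_
    rw [List.map_cons, List.sum_cons]

theorem list_sum_mul {α : Type*} (l : List α) (g : α → R) (a b : R) :
    (l.map (fun t => a * g t * b)).sum = a * (l.map g).sum * b := by
  induction l with
  | nil => simp
  | cons c l ih =>
    rw [List.map_cons, List.sum_cons, ih, List.map_cons, List.sum_cons]
    noncomm_ring

theorem ix_eq {c : ℕ} {k : Fin 5} (h : c / 4 = k) : ix c = k := by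
  unfold ix
  refine Fin.ext ?_
  show c / 4 % 5 = k
  rw [h]
  have := k.isLt
  omega

theorem ix_ne {c : ℕ} {k : Fin 5} (h1 : c < 20) (h : c / 4 ≠ k) : ix c ≠ k := by
  intro h2
  have h3 : c / 4 % 5 = k := congrArg Fin.val h2
  omega

/-- the left side of a relation -/
theorem lhs {J : AddSubgroup R} (h : SData n J) (hn : 2 ≤ n) (hX : ∀ k, X k ∈ J) {r : Rl}
    (hk : r.k < 5) (hp : okw r.k r.p = true) (hu : okw r.k r.u = true) (hs : okw r.k r.s = true)
    (e : Fin 5 → Fin n) :
    ∑ i, ((forms r.u r.ty).map (fun t => pw n X (Function.update e ⟨r.k, hk⟩ i) (wd r t))).sum =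
      (((forms r.u r.ty).length : ℤ) * (r.u.map (mc e)).prod * n) •
        (pw n X e r.p * X ⟨r.k, hk⟩ ^ (n - 1) * pw n X e r.s) := by
  rw [okw_iff] at hp hu hs
  have hpw : ∀ (w : List ℕ), (∀ c ∈ w, c < 20 ∧ c % 4 ≠ 0 ∧ c / 4 ≠ r.k) → ∀ i,
      pw n X (Function.update e ⟨r.k, hk⟩ i) w = pw n X e w :=
    fun w hw i => pw_update fun c hc => ix_ne (hw c hc).1 (hw c hc).2.2
  have e1 : ∀ i : Fin n, ((forms r.u r.ty).map
      (fun t => pw n X (Function.update e ⟨r.k, hk⟩ i) (wd r t))).sum =
      pw n X e r.p * (X ⟨r.k, hk⟩ ^ (i : ℕ) * ((forms r.u r.ty).map (pw n X e)).sum *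
        X ⟨r.k, hk⟩ ^ (n - 1 - (i : ℕ))) * pw n X e r.s := by
    intro i
    have e2 : ∀ t ∈ forms r.u r.ty, pw n X (Function.update e ⟨r.k, hk⟩ i) (wd r t) =
        (pw n X e r.p * X ⟨r.k, hk⟩ ^ (i : ℕ)) * pw n X e t *
          (X ⟨r.k, hk⟩ ^ (n - 1 - (i : ℕ)) * pw n X e r.s) := by
      intro t ht
      unfold wd
      rw [pw_append, pw_cons, pw_append, pw_cons, hpw _ hp, hpw _ hs,
        hpw t (fun c hc => hu c (forms_mem ht c hc))]
      have e3 : val n X (Function.update e ⟨r.k, hk⟩ i) (4 * r.k + 1) =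
          X ⟨r.k, hk⟩ ^ (i : ℕ) := by
        unfold val
        rw [if_pos (by omega), ix_eq (k := ⟨r.k, hk⟩) (by show (4 * r.k + 1) / 4 = r.k; omega),
          Function.update_self]
      have e4 : val n X (Function.update e ⟨r.k, hk⟩ i) (4 * r.k + 2) =
          X ⟨r.k, hk⟩ ^ (n - 1 - (i : ℕ)) := by
        unfold val
        rw [if_neg (by omega), if_pos (by omega),
          ix_eq (k := ⟨r.k, hk⟩) (by show (4 * r.k + 2) / 4 = r.k; omega),
          Function.update_self]
      rw [e3, e4]
      noncomm_ring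
    rw [List.map_congr_left e2, list_sum_mul]
    noncomm_ring
  rw [sum_congr rfl (fun i _ => e1 i)]
  rw [← sum_mul, ← mul_sum, Dx h (by omega) (hX _) (forms_cst h hn hX e r.u r.ty),
    mul_smul_comm, smul_mul_assoc]

theorem prod_zero {e : Fin 5 → Fin n} {u : List ℕ} {c : ℕ} (hc : c ∈ u) (h : mc e c = 0) :
    (u.map (mc e)).prod = 0 := List.prod_eq_zero (List.mem_map.2 ⟨c, hc, h⟩)

/-- relations without boundary term -/
theorem sound0 {J : AddSubgroup R} (h : SData n J) (hn : 2 ≤ n) (hX : ∀ k, X k ∈ J) {r : Rl}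
    (hk : r.k < 5) (hp : okw r.k r.p = true) (hu : okw r.k r.u = true) (hs : okw r.k r.s = true)
    (hb : noB r = true) :
    ((forms r.u r.ty).map (fun t => ev n X (wd r t))).sum = 0 := by
  unfold ev
  rw [list_sum_comm, key_sum (by omega) ⟨r.k, hk⟩ _ (fun _ => (0 : R)) (fun e => ?_),
    sum_const_zero]
  rw [lhs h hn hX hk hp hu hs e, sum_const_zero]
  have e1 : (r.u.map (mc e)).prod = 0 := by
    obtain ⟨c, hc, h1 | ⟨h1, h2⟩⟩ := noB_iff.1 hb
    · refine prod_zero hc ?_
      unfold mc
      rw [if_neg (by omega), if_neg (by omega)]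
    · by_cases h3 : (e (ix c) : ℕ) = 0
      · refine prod_zero h2 ?_
        unfold mc
        have e4 : ix (c + 1) = ix c := by
          unfold ix
          refine Fin.ext ?_
          show (c + 1) / 4 % 5 = c / 4 % 5
          have : (c + 1) / 4 = c / 4 := by omega
          rw [this]
        rw [if_neg (by omega), if_pos (by omega), e4, h3, if_neg (by omega)]
      · refine prod_zero hc ?_
        unfold mc
        rw [if_pos h1, if_neg h3]
  rw [e1, mul_zero, zero_mul, zero_smul]

/-- relations with boundary term -/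
theorem sound1 {J : AddSubgroup R} (h : SData n J) (hn : 2 ≤ n) (hX : ∀ k, X k ∈ J) {r : Rl}
    (hk : r.k < 5) (hp : okw r.k r.p = true) (hu : okw r.k r.u = true) (hs : okw r.k r.s = true)
    (hb : isB r = true) :
    ((forms r.u r.ty).map (fun t => ev n X (wd r t))).sum =
      (((forms r.u r.ty).length : ℤ) * n) • ev n X (bd r) := by
  unfold ev
  rw [list_sum_comm, smul_sum]
  refine key_sum (by omega) ⟨r.k, hk⟩ _ _ (fun e => ?_)
  rw [lhs h hn hX hk hp hu hs e]
  rw [okw_iff] at hp hu hs
  rw [isB_iff] at hb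
  have hbl : ∀ (w : List ℕ), (∀ c ∈ w, c < 20 ∧ c % 4 ≠ 0 ∧ c / 4 ≠ r.k) → ∀ i,
      pw n X (Function.update e ⟨r.k, hk⟩ i) (w.map (bl r.u)) = pw n X e (w.map (bl r.u)) := by
    intro w hw i
    refine pw_update fun c hc => ?_
    obtain ⟨d, hd, rfl⟩ := List.mem_map.1 hc
    obtain ⟨h1, h2, h3⟩ := hw d hd
    unfold bl
    by_cases h4 : d % 4 = 2
    · rw [h4, beq_t, cond_true]
      cases mb (d - 1) r.u with
      | true =>
        rw [cond_true]
        refine ix_ne (by omega) ?_
        show (d + 1) / 4 ≠ r.k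
        omega
      | false =>
        rw [cond_false]
        exact ix_ne h1 h3
    · rw [beq_f h4, cond_false]
      exact ix_ne h1 h3
  have e1 : ∀ i : Fin n, pw n X (Function.update e ⟨r.k, hk⟩ i) (bd r) =
      pw n X e (r.p.map (bl r.u)) * (if i = ⟨0, by omega⟩ then X ⟨r.k, hk⟩ ^ (n - 1) else 0) *
        pw n X e (r.s.map (bl r.u)) := by
    intro i
    unfold bd
    rw [pw_append, pw_cons, hbl _ hp, hbl _ hs]
    have e3 : val n X (Function.update e ⟨r.k, hk⟩ i) (4 * r.k + 3) =
        (if i = ⟨0, by omega⟩ then X ⟨r.k, hk⟩ ^ (n - 1) else 0) := by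
      unfold val
      rw [if_neg (by omega), if_neg (by omega),
        ix_eq (k := ⟨r.k, hk⟩) (by show (4 * r.k + 3) / 4 = r.k; omega),
        Function.update_self]
      by_cases hi : i = ⟨0, by omega⟩
      · rw [if_pos hi, if_pos (by rw [hi])]
      · rw [if_neg hi, if_neg (fun h' => hi (Fin.ext h'))]
    rw [e3, mul_assoc]
  have e2 : ∑ i : Fin n, pw n X (Function.update e ⟨r.k, hk⟩ i) (bd r) =
      pw n X e (r.p.map (bl r.u)) * X ⟨r.k, hk⟩ ^ (n - 1) * pw n X e (r.s.map (bl r.u)) := by
    rw [sum_congr rfl (fun i _ => e1 i), ← sum_mul, ← mul_sum, sum_ite_eq', if_pos (mem_univ _)]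
  rw [← smul_sum, e2]
  by_cases hz : ∀ c ∈ r.u, (e (ix c) : ℕ) = 0
  · have e3 : (r.u.map (mc e)).prod = 1 := by
      have e4 : r.u.map (mc e) = r.u.map (fun _ => (1 : ℤ)) := by
        refine List.map_congr_left fun c hc => ?_
        unfold mc
        rw [if_pos (hb c hc).1, if_pos (hz c hc)]
      rw [e4, List.map_const', List.prod_replicate, one_pow]
    have e5 : ∀ w : List ℕ, pw n X e (w.map (bl r.u)) = pw n X e w := by
      intro w
      unfold pw
      rw [List.map_map]
      congr 1
      refine List.map_congr_left fun c _ => ?_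
      show val n X e (bl r.u c) = val n X e c
      unfold bl
      by_cases h4 : c % 4 = 2
      · rw [h4, beq_t, cond_true]
        cases h5 : mb (c - 1) r.u with
        | true =>
          rw [cond_true]
          have h6 := mb_iff.1 h5
          have e6 : ix (c + 1) = ix (c - 1) := by
            unfold ix
            refine Fin.ext ?_
            show (c + 1) / 4 % 5 = (c - 1) / 4 % 5
            have : (c + 1) / 4 = (c - 1) / 4 := by omega
            rw [this]
          have e7 : ix c = ix (c - 1) := by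
            unfold ix
            refine Fin.ext ?_
            show c / 4 % 5 = (c - 1) / 4 % 5
            have : c / 4 = (c - 1) / 4 := by omega
            rw [this]
          unfold val
          rw [if_neg (by omega), if_neg (by omega), e6, if_pos (hz _ h6), if_neg (by omega),
            if_pos h4, e7, hz _ h6, Nat.sub_zero]
        | false => rw [cond_false]
      · rw [beq_f h4, cond_false]
    rw [e3, e5, e5, mul_one]
  · push_neg at hz
    obtain ⟨c, hc, hc0⟩ := hz
    have h1 := hb c hc
    have e3 : (r.u.map (mc e)).prod = 0 := by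
      refine prod_zero hc ?_
      unfold mc
      rw [if_pos h1.1, if_neg hc0]
    have e4 : val n X e (bl r.u (c + 1)) = 0 := by
      unfold bl
      have h2 : (c + 1) % 4 = 2 := by omega
      rw [h2, beq_t, cond_true, Nat.add_sub_cancel, mb_iff.2 hc, cond_true]
      have e5 : ix (c + 1 + 1) = ix c := by
        unfold ix
        refine Fin.ext ?_
        show (c + 1 + 1) / 4 % 5 = c / 4 % 5
        have : (c + 1 + 1) / 4 = c / 4 := by omega
        rw [this]
      unfold val
      rw [if_neg (by omega), if_neg (by omega), e5, if_neg hc0]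
    have e6 : ∀ w : List ℕ, c + 1 ∈ w → pw n X e (w.map (bl r.u)) = 0 := by
      intro w hw
      unfold pw
      exact List.prod_eq_zero (List.mem_map.2 ⟨bl r.u (c + 1), List.mem_map.2 ⟨_, hw, rfl⟩, e4⟩)
    rw [e3, mul_zero, zero_mul, zero_smul]
    rcases h1.2 with h2 | h2
    · rw [e6 _ h2, zero_mul, zero_mul, smul_zero]
    · rw [e6 _ h2, mul_zero, smul_zero]

end sound

end Pool.Agent.H.MP_e16c79_al.SP
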