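import Pool.Agent.H.MP_e16c79_al.SP.Defs
import Pool.Agent.H.MP_e16c79_al.HS.Pol

/-!
# MP_e16c79_al: words in powers, summed over the exponents
-/

set_option autoImplicit false

namespace Pool.Agent.H.MP_e16c79_al.SP

open Finset

variable {R : Type*} [Ring R]

/-- `r` is congruent to the integer `m` modulo `J` -/
def Cst (J : AddSubgroup R) (r : R) (m : ℤ) : Prop := r - m • (1 : R) ∈ J

section cst

variable {n : ℕ} {J : AddSubgroup R} (h : SData n J)
include h

theorem Cst.pair {a b : R} {k l : ℤ} (ha : Cst J a k) (hb : Cst J b l) :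
    Cst J (a * b + b * a) (2 * k * l) := by
  have e : a * b + b * a - (2 * k * l) • (1 : R) =
      ((a - k • (1 : R)) * (b - l • (1 : R)) + (b - l • (1 : R)) * (a - k • (1 : R))) +
        ((2 * k) • (b - l • (1 : R)) + (2 * l) • (a - k • (1 : R))) := by
    simp only [mul_sub, sub_mul, smul_sub, mul_smul_comm, smul_mul_assoc, mul_one, one_mul,
      ← mul_smul]
    have e1 : 2 * l * k = 2 * k * l := by ring
    have e2 : l * k = k * l := by ring
    rw [e1, e2]
    module
  show _ ∈ J
  rw [e]
  exact J.add_mem (h.two_mem ha hb) (J.add_mem (J.zsmul_mem hb _) (J.zsmul_mem ha _))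

theorem Cst.tri {a b c : R} {k l m : ℤ} (ha : Cst J a k) (hb : Cst J b l) (hc : Cst J c m) :
    Cst J (a * b * c + c * b * a) (2 * k * l * m) := by
  obtain ⟨a', rfl⟩ : ∃ a', a = a' + k • (1 : R) := ⟨a - k • (1 : R), by abel⟩
  obtain ⟨b', rfl⟩ : ∃ b', b = b' + l • (1 : R) := ⟨b - l • (1 : R), by abel⟩
  obtain ⟨c', rfl⟩ : ∃ c', c = c' + m • (1 : R) := ⟨c - m • (1 : R), by abel⟩
  have ha' : a' ∈ J := by
    have : a' + k • (1 : R) - k • (1 : R) ∈ J := ha
    rwa [add_sub_cancel_right] at this
  have hb' : b' ∈ J := by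
    have : b' + l • (1 : R) - l • (1 : R) ∈ J := hb
    rwa [add_sub_cancel_right] at this
  have hc' : c' ∈ J := by
    have : c' + m • (1 : R) - m • (1 : R) ∈ J := hc
    rwa [add_sub_cancel_right] at this
  have e : (a' + k • (1 : R)) * (b' + l • (1 : R)) * (c' + m • (1 : R)) +
      (c' + m • (1 : R)) * (b' + l • (1 : R)) * (a' + k • (1 : R)) - (2 * k * l * m) • (1 : R) =
      (a' * b' * c' + c' * b' * a') + (m • (a' * b' + b' * a') + l • (a' * c' + c' * a') +
        k • (b' * c' + c' * b')) + ((2 * l * m) • a' + (2 * k * m) • b' + (2 * k * l) • c') := by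
    simp only [add_mul, mul_add, mul_smul_comm, smul_mul_assoc, mul_one, one_mul, smul_add,
      ← mul_smul]
    module
  show _ ∈ J
  rw [e]
  refine J.add_mem (J.add_mem (h.tri_mem ha' hb' hc') (J.add_mem (J.add_mem ?_ ?_) ?_)) ?_
  · exact J.zsmul_mem (h.two_mem ha' hb') _
  · exact J.zsmul_mem (h.two_mem ha' hc') _
  · exact J.zsmul_mem (h.two_mem hb' hc') _
  · exact J.add_mem (J.add_mem (J.zsmul_mem ha' _) (J.zsmul_mem hb' _)) (J.zsmul_mem hc' _)

omit h in
theorem Cst.add {a b : R} {k l : ℤ} (ha : Cst J a k) (hb : Cst J b l) :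
    Cst J (a + b) (k + l) := by
  have e : a + b - (k + l) • (1 : R) = (a - k • (1 : R)) + (b - l • (1 : R)) := by
    rw [add_smul]
    abel
  show _ ∈ J
  rw [e]
  exact J.add_mem ha hb

omit h in
theorem Cst.mem {a : R} (ha : a ∈ J) : Cst J a 0 := by
  show _ ∈ J
  rw [zero_smul, sub_zero]
  exact ha

omit h in
variable (J) in
theorem Cst.one : Cst J (1 : R) 1 := by
  show _ ∈ J
  rw [one_smul, sub_self]
  exact J.zero_mem

/-- the sum over the split -/
theorem Dx (hn : 1 ≤ n) {x a : R} {k : ℤ} (hx : x ∈ J) (ha : Cst J a k) :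
    ∑ i : Fin n, x ^ (i : ℕ) * a * x ^ (n - 1 - (i : ℕ)) = (k * n) • x ^ (n - 1) := by
  obtain ⟨m, rfl⟩ : ∃ m, n = m + 1 := ⟨n - 1, by omega⟩
  rw [Nat.add_sub_cancel]
  have h1 := HS.lin (J := J) m (fun d h1 h2 r hr => h.small h1 h2 hr) h.nil hx ha
  rw [Finset.Nat.sum_antidiagonal_eq_sum_range_succ_mk] at h1
  rw [Fin.sum_univ_eq_sum_range (fun i => x ^ i * a * x ^ (m - i))]
  have e : ∀ i ∈ range (m + 1), x ^ i * a * x ^ (m - i) =
      x ^ i * (a - k • (1 : R)) * x ^ (m - i) + k • x ^ m := by
    intro i hi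
    rw [mem_range] at hi
    have e1 : x ^ m = x ^ i * x ^ (m - i) := by
      rw [← pow_add]
      congr 1
      omega
    rw [mul_sub, sub_mul, mul_smul_comm, smul_mul_assoc, mul_one, ← e1, sub_add_cancel]
  rw [sum_congr rfl e, sum_add_distrib]
  have h2 : ∑ i ∈ range (m + 1), x ^ i * (a - k • (1 : R)) * x ^ (m - i) = 0 := h1
  rw [h2, zero_add, sum_const, card_range, mul_comm k, mul_smul, natCast_zsmul]

end cst

/-- the index of a letter; the letters `4 k + 1`, `4 k + 2`, `4 k + 3` are the two powers of `x_k`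
and the block -/
def ix (c : ℕ) : Fin 5 := ⟨c / 4 % 5, Nat.mod_lt _ (by norm_num)⟩

variable (n : ℕ) (X : Fin 5 → R)

/-- the value of a letter -/
def val (e : Fin 5 → Fin n) (c : ℕ) : R :=
  if c % 4 = 1 then X (ix c) ^ (e (ix c) : ℕ)
  else if c % 4 = 2 then X (ix c) ^ (n - 1 - (e (ix c) : ℕ))
  else if (e (ix c) : ℕ) = 0 then X (ix c) ^ (n - 1) else 0

/-- the value of a word -/
def pw (e : Fin 5 → Fin n) (w : List ℕ) : R := (w.map (val n X e)).prod

/-- the sum over the exponents -/
def ev (w : List ℕ) : R := ∑ e : Fin 5 → Fin n, pw n X e w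

variable {n X}

theorem pw_append (e : Fin 5 → Fin n) (v w : List ℕ) :
    pw n X e (v ++ w) = pw n X e v * pw n X e w := by
  unfold pw
  rw [List.map_append, List.prod_append]

theorem pw_cons (e : Fin 5 → Fin n) (c : ℕ) (w : List ℕ) :
    pw n X e (c :: w) = val n X e c * pw n X e w := by
  unfold pw
  rw [List.map_cons, List.prod_cons]

theorem pw_nil (e : Fin 5 → Fin n) : pw n X e [] = 1 := rfl

/-- sums over one exponent -/
theorem key_sum (hn : 0 < n) (k : Fin 5) (F G : (Fin 5 → Fin n) → R)
    (h : ∀ e, ∑ i, F (Function.update e k i) = ∑ i, G (Function.update e k i)) :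
    ∑ e, F e = ∑ e, G e := by
  rw [← (Fin.insertNthEquiv (fun _ => Fin n) k).sum_comp F,
    ← (Fin.insertNthEquiv (fun _ => Fin n) k).sum_comp G, Fintype.sum_prod_type_right,
    Fintype.sum_prod_type_right]
  refine sum_congr rfl fun e' _ => ?_
  have h1 := h (Fin.insertNth (α := fun _ => Fin n) k (⟨0, hn⟩ : Fin n) e')
  simp only [Fin.update_insertNth] at h1
  exact h1

theorem beq_t (a : ℕ) : Nat.beq a a = true := Nat.beq_refl a

theorem beq_f {a b : ℕ} (h : a ≠ b) : Nat.beq a b = false :=
  Bool.eq_false_iff.2 fun h' => h (Nat.eq_of_beq_eq_true h')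

/-- swapping the two powers of `x_k` -/
def sw (k c : ℕ) : ℕ :=
  bif Nat.beq c (4 * k + 1) then 4 * k + 2 else bif Nat.beq c (4 * k + 2) then 4 * k + 1 else c

theorem val_update {e : Fin 5 → Fin n} {k : Fin 5} {i : Fin n} {c : ℕ} (h : ix c ≠ k) :
    val n X (Function.update e k i) c = val n X e c := by
  unfold val
  rw [Function.update_of_ne h]

theorem pw_update {e : Fin 5 → Fin n} {k : Fin 5} {i : Fin n} {w : List ℕ}
    (h : ∀ c ∈ w, ix c ≠ k) : pw n X (Function.update e k i) w = pw n X e w := by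
  unfold pw
  congr 1
  exact List.map_congr_left fun c hc => val_update (h c hc)

/-- the reflection of an exponent -/
def rf (k : Fin 5) (e : Fin 5 → Fin n) : Fin 5 → Fin n := Function.update e k (Fin.rev (e k))

theorem rf_rf (k : Fin 5) (e : Fin 5 → Fin n) : rf k (rf k e) = e := by
  unfold rf
  rw [Function.update_self, Fin.rev_rev, Function.update_idem, Function.update_eq_self]

theorem val_sw {e : Fin 5 → Fin n} {k c : ℕ} (hk : k < 5) (hc : c < 20) (h3 : c ≠ 4 * k + 3)
    (h4 : c % 4 ≠ 0) :
    val n X e (sw k c) = val n X (rf ⟨k, hk⟩ e) c := by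
  by_cases h1 : c = 4 * k + 1
  · subst h1
    have e1 : sw k (4 * k + 1) = 4 * k + 2 := by
      unfold sw
      rw [beq_t, cond_true]
    rw [e1]
    unfold val
    have e2 : (4 * k + 2) % 4 = 2 := by omega
    have e3 : (4 * k + 1) % 4 = 1 := by omega
    have e4 : ix (4 * k + 2) = ⟨k, hk⟩ := by
      unfold ix
      exact Fin.ext (by show (4 * k + 2) / 4 % 5 = k; omega)
    have e5 : ix (4 * k + 1) = ⟨k, hk⟩ := by
      unfold ix
      exact Fin.ext (by show (4 * k + 1) / 4 % 5 = k; omega)
    rw [e2, e3, e4, e5]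
    unfold rf
    rw [Function.update_self, Fin.val_rev]
    simp only [if_true, show ¬ (2 = 1) by norm_num, if_false]
    congr 1
    omega
  by_cases h2 : c = 4 * k + 2
  · subst h2
    have e1 : sw k (4 * k + 2) = 4 * k + 1 := by
      unfold sw
      rw [beq_f (by omega), cond_false, beq_t, cond_true]
    rw [e1]
    unfold val
    have e2 : (4 * k + 2) % 4 = 2 := by omega
    have e3 : (4 * k + 1) % 4 = 1 := by omega
    have e4 : ix (4 * k + 2) = ⟨k, hk⟩ := by
      unfold ix
      exact Fin.ext (by show (4 * k + 2) / 4 % 5 = k; omega)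
    have e5 : ix (4 * k + 1) = ⟨k, hk⟩ := by
      unfold ix
      exact Fin.ext (by show (4 * k + 1) / 4 % 5 = k; omega)
    rw [e2, e3, e4, e5]
    unfold rf
    rw [Function.update_self, Fin.val_rev]
    simp only [if_true, show ¬ (2 = 1) by norm_num, if_false]
    congr 1
    have := (e ⟨k, hk⟩).isLt
    omega
  have e1 : sw k c = c := by
    unfold sw
    rw [beq_f h1, cond_false, beq_f h2, cond_false]
  rw [e1]
  unfold rf
  rw [val_update]
  intro h5
  have h6 := congrArg Fin.val h5
  have h7 : c / 4 % 5 = k := h6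
  omega

/-- swapping does not change the sum -/
theorem ev_sw {k : ℕ} (hk : k < 5) {w : List ℕ} (h1 : ∀ c ∈ w, c < 20) (h2 : ∀ c ∈ w, c % 4 ≠ 0)
    (h3 : ∀ c ∈ w, c ≠ 4 * k + 3) : ev n X (w.map (sw k)) = ev n X w := by
  unfold ev
  have e1 : ∀ e : Fin 5 → Fin n, pw n X e (w.map (sw k)) = pw n X (rf ⟨k, hk⟩ e) w := by
    intro e
    unfold pw
    rw [List.map_map]
    congr 1
    exact List.map_congr_left fun c hc => val_sw hk (h1 c hc) (h3 c hc) (h2 c hc)
  rw [sum_congr rfl (fun e _ => e1 e)]
  exact Equiv.sum_comp (Function.Involutive.toPerm (rf (n := n) ⟨k, hk⟩) (rf_rf ⟨k, hk⟩))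
    (fun e => pw n X e w)

/-- the expansion of a Jordan polynomial -/
def forms : List ℕ → ℕ → List (List ℕ)
  | [], _ => [[]]
  | [a], _ => [[a]]
  | [a, b], _ => [[a, b], [b, a]]
  | [a, b, c], _ => [[a, b, c], [c, b, a]]
  | [a, b, c, d], 0 => [[a, b, c, d], [b, a, c, d], [d, c, a, b], [d, c, b, a]]
  | [a, b, c, d], _ => [[a, b, c, d], [a, c, b, d], [d, b, c, a], [d, c, b, a]]
  | [a, b, c, d, f], 0 => [[a, b, c, d, f], [c, b, a, d, f], [f, d, a, b, c], [f, d, c, b, a]]
  | [a, b, c, d, f], _ => [[a, b, c, d, f], [a, d, c, b, f], [f, b, c, d, a], [f, d, c, b, a]]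
  | _, _ => []

/-- the integer of a letter -/
def mc (e : Fin 5 → Fin n) (c : ℕ) : ℤ :=
  if c % 4 = 1 then (if (e (ix c) : ℕ) = 0 then 1 else 0)
  else if c % 4 = 2 then (if n - 1 - (e (ix c) : ℕ) = 0 then 1 else 0) else 0

theorem val_cst {J : AddSubgroup R} (h : SData n J) (hn : 2 ≤ n) (hX : ∀ k, X k ∈ J)
    (e : Fin 5 → Fin n) (c : ℕ) : Cst J (val n X e c) (mc e c) := by
  have hp : ∀ (k : Fin 5) (i : ℕ), Cst J (X k ^ i) (if i = 0 then 1 else 0) := by
    intro k i
    by_cases hi : i = 0
    · rw [if_pos hi, hi, pow_zero]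
      exact Cst.one J
    · rw [if_neg hi]
      obtain ⟨j, rfl⟩ : ∃ j, i = j + 1 := ⟨i - 1, by omega⟩
      exact Cst.mem (h.pow_mem (hX k) j)
  unfold val mc
  by_cases h1 : c % 4 = 1
  · rw [if_pos h1, if_pos h1]
    exact hp _ _
  rw [if_neg h1, if_neg h1]
  by_cases h2 : c % 4 = 2
  · rw [if_pos h2, if_pos h2]
    exact hp _ _
  rw [if_neg h2, if_neg h2]
  by_cases h3 : (e (ix c) : ℕ) = 0
  · rw [if_pos h3]
    have k1 := hp (ix c) (n - 1)
    rwa [if_neg (by omega)] at k1
  · rw [if_neg h3]
    exact Cst.mem J.zero_mem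

/-- the integer of a Jordan polynomial -/
theorem forms_cst {J : AddSubgroup R} (h : SData n J) (hn : 2 ≤ n) (hX : ∀ k, X k ∈ J)
    (e : Fin 5 → Fin n) (u : List ℕ) (ty : ℕ) :
    Cst J ((forms u ty).map (pw n X e)).sum
      (((forms u ty).length : ℤ) * (u.map (mc e)).prod) := by
  have hv := val_cst h hn hX e
  match u, ty with
  | [], _ =>
    have k1 := Cst.one (R := R) J
    simpa [forms, pw] using k1
  | [a], _ =>
    simpa [forms, pw] using hv a
  | [a, b], _ =>
    have k1 := Cst.pair h (hv a) (hv b)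
    have e1 : ((forms [a, b] ‹ℕ›).map (pw n X e)).sum =
        val n X e a * val n X e b + val n X e b * val n X e a := by
      simp [forms, pw]
    have e2 : (((forms [a, b] ‹ℕ›).length : ℤ) * ([a, b].map (mc e)).prod) =
        2 * mc e a * mc e b := by
      simp [forms]
      ring
    rw [e1, e2]
    exact k1
  | [a, b, c], _ =>
    have k1 := Cst.tri h (hv a) (hv b) (hv c)
    have e1 : ((forms [a, b, c] ‹ℕ›).map (pw n X e)).sum =
        val n X e a * val n X e b * val n X e c + val n X e c * val n X e b * val n X e a := by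
      simp [forms, pw, mul_assoc]
    have e2 : (((forms [a, b, c] ‹ℕ›).length : ℤ) * ([a, b, c].map (mc e)).prod) =
        2 * mc e a * mc e b * mc e c := by
      simp [forms]
      ring
    rw [e1, e2]
    exact k1
  | [a, b, c, d], 0 =>
    have k1 := Cst.tri h (Cst.pair h (hv a) (hv b)) (hv c) (hv d)
    have e1 : ((forms [a, b, c, d] 0).map (pw n X e)).sum =
        (val n X e a * val n X e b + val n X e b * val n X e a) * val n X e c * val n X e d +
          val n X e d * val n X e c *
            (val n X e a * val n X e b + val n X e b * val n X e a) := by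
      simp [forms, pw]
      noncomm_ring
    have e2 : (((forms [a, b, c, d] 0).length : ℤ) * ([a, b, c, d].map (mc e)).prod) =
        2 * (2 * mc e a * mc e b) * mc e c * mc e d := by
      simp [forms]
      ring
    rw [e1, e2]
    exact k1
  | [a, b, c, d], t + 1 =>
    have k1 := Cst.tri h (hv a) (Cst.pair h (hv b) (hv c)) (hv d)
    have e1 : ((forms [a, b, c, d] (t + 1)).map (pw n X e)).sum =
        val n X e a * (val n X e b * val n X e c + val n X e c * val n X e b) * val n X e d +
          val n X e d * (val n X e b * val n X e c + val n X e c * val n X e b) *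
            val n X e a := by
      simp [forms, pw]
      noncomm_ring
    have e2 : (((forms [a, b, c, d] (t + 1)).length : ℤ) * ([a, b, c, d].map (mc e)).prod) =
        2 * mc e a * (2 * mc e b * mc e c) * mc e d := by
      simp [forms]
      ring
    rw [e1, e2]
    exact k1
  | [a, b, c, d, f], 0 =>
    have k1 := Cst.tri h (Cst.tri h (hv a) (hv b) (hv c)) (hv d) (hv f)
    have e1 : ((forms [a, b, c, d, f] 0).map (pw n X e)).sum =
        (val n X e a * val n X e b * val n X e c + val n X e c * val n X e b * val n X e a) *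
          val n X e d * val n X e f +
          val n X e f * val n X e d *
            (val n X e a * val n X e b * val n X e c + val n X e c * val n X e b * val n X e a) := by
      simp [forms, pw]
      noncomm_ring
    have e2 : (((forms [a, b, c, d, f] 0).length : ℤ) * ([a, b, c, d, f].map (mc e)).prod) =
        2 * (2 * mc e a * mc e b * mc e c) * mc e d * mc e f := by
      simp [forms]
      ring
    rw [e1, e2]
    exact k1
  | [a, b, c, d, f], t + 1 =>
    have k1 := Cst.tri h (hv a) (Cst.tri h (hv b) (hv c) (hv d)) (hv f)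
    have e1 : ((forms [a, b, c, d, f] (t + 1)).map (pw n X e)).sum =
        val n X e a * (val n X e b * val n X e c * val n X e d +
          val n X e d * val n X e c * val n X e b) * val n X e f +
          val n X e f * (val n X e b * val n X e c * val n X e d +
          val n X e d * val n X e c * val n X e b) * val n X e a := by
      simp [forms, pw]
      noncomm_ring
    have e2 : (((forms [a, b, c, d, f] (t + 1)).length : ℤ) *
        ([a, b, c, d, f].map (mc e)).prod) =
        2 * mc e a * (2 * mc e b * mc e c * mc e d) * mc e f := by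
      simp [forms]
      ring
    rw [e1, e2]
    exact k1
  | _ :: _ :: _ :: _ :: _ :: _ :: _, _ =>
    have k1 := Cst.mem (R := R) J.zero_mem
    simpa [forms] using k1

end Pool.Agent.H.MP_e16c79_al.SP
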