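import Mathlib

/-!
# MP_e16c79_al: words whose inner letters commute
-/

set_option autoImplicit false

namespace Pool.Agent.H.MP_e16c79_al.SP

open Finset

variable {R : Type*} [Ring R]

/-- expansion of the power of a sum -/
theorem sum_pow_words {ι : Type*} [Fintype ι] (X : ι → R) (k : ℕ) :
    (∑ i, X i) ^ k = ∑ f : Fin k → ι, (List.ofFn (fun j => X (f j))).prod := by
  induction k with
  | zero => simp
  | succ k ih =>
    rw [pow_succ', ih, ← (Fin.consEquiv (fun _ => ι)).sum_comp, Fintype.sum_prod_type, sum_mul]
    refine sum_congr rfl fun i _ => ?_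
    rw [mul_sum]
    refine sum_congr rfl fun f _ => ?_
    rw [List.ofFn_succ, List.prod_cons]
    simp [Fin.consEquiv]

/-- The hypotheses: inner letters of words of length five commute. -/
structure Cm (C : AddSubgroup R) : Prop where
  l : ∀ c1 ∈ C, ∀ c2 ∈ C, ∀ c3 ∈ C, ∀ c4 ∈ C, ∀ c5 ∈ C, c1 * (c2 * c3 - c3 * c2) * c4 * c5 = 0
  r : ∀ c1 ∈ C, ∀ c2 ∈ C, ∀ c3 ∈ C, ∀ c4 ∈ C, ∀ c5 ∈ C, c1 * c2 * (c3 * c4 - c4 * c3) * c5 = 0

variable {C : AddSubgroup R} (h : Cm C)
include h

theorem Cm.swap {u w : List R} {x y : R} (hu : ∀ c ∈ u, c ∈ C) (hw : ∀ c ∈ w, c ∈ C)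
    (hx : x ∈ C) (hy : y ∈ C) (h1 : 1 ≤ u.length) (h2 : 1 ≤ w.length)
    (h3 : 3 ≤ u.length + w.length) :
    u.prod * (x * y - y * x) * w.prod = 0 := by
  rcases List.eq_nil_or_concat u with rfl | ⟨u', c1, rfl⟩
  · simp at h1
  match w, hw, h2, h3 with
  | [c5], hw, _, h3 =>
    rcases List.eq_nil_or_concat u' with rfl | ⟨u'', c0, rfl⟩
    · simp at h3
    · have k := h.r c0 (hu _ (by simp)) c1 (hu _ (by simp)) x hx y hy c5 (hw _ (by simp))
      simp only [List.concat_eq_append, List.prod_append, List.prod_cons, List.prod_nil, mul_one]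
      calc u''.prod * c0 * c1 * (x * y - y * x) * c5 =
          u''.prod * (c0 * c1 * (x * y - y * x) * c5) := by simp only [mul_assoc]
        _ = 0 := by rw [k, mul_zero]
  | c4 :: c5 :: w', hw, _, _ =>
    have k := h.l c1 (hu _ (by simp)) x hx y hy c4 (hw _ (by simp)) c5 (hw _ (by simp))
    simp only [List.concat_eq_append, List.prod_append, List.prod_cons, List.prod_nil, mul_one]
    calc u'.prod * c1 * (x * y - y * x) * (c4 * (c5 * w'.prod)) =
        u'.prod * (c1 * (x * y - y * x) * c4 * c5) * w'.prod := by simp only [mul_assoc]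
      _ = 0 := by rw [k, mul_zero, zero_mul]

theorem Cm.perm {l1 l2 : List R} (hp : l1.Perm l2) : ∀ u w : List R, (∀ c ∈ u, c ∈ C) →
    (∀ c ∈ w, c ∈ C) → (∀ c ∈ l1, c ∈ C) → 1 ≤ u.length → 1 ≤ w.length →
      5 ≤ u.length + l1.length + w.length → u.prod * l1.prod * w.prod = u.prod * l2.prod * w.prod := by
  induction hp with
  | nil => exact fun _ _ _ _ _ _ _ _ => rfl
  | @cons x l1 l2 _ ih =>
    intro u w hu hw hl h1 h2 h3
    have k := ih (u ++ [x]) w (by
      intro c hc
      rcases List.mem_append.1 hc with hc | hc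
      · exact hu c hc
      · rw [List.mem_singleton] at hc
        rw [hc]
        exact hl x (by simp)) hw (fun c hc => hl c (by simp [hc])) (by simp) h2 (by
        rw [List.length_append, List.length_singleton]
        rw [List.length_cons] at h3
        omega)
    simp only [List.prod_append, List.prod_cons, List.prod_nil, mul_one] at k ⊢
    rw [← mul_assoc u.prod x, ← mul_assoc u.prod x]
    exact k
  | swap x y l =>
    intro u w hu hw hl h1 h2 h3
    have k := h.swap (u := u) (w := l ++ w) (x := y) (y := x) hu (by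
      intro c hc
      rcases List.mem_append.1 hc with hc | hc
      · exact hl c (by simp [hc])
      · exact hw c hc) (hl y (by simp)) (hl x (by simp)) h1 (by
        rw [List.length_append]
        omega) (by
        rw [List.length_append]
        simp only [List.length_cons] at h3
        omega)
    rw [← sub_eq_zero]
    rw [← k]
    simp only [List.prod_append, List.prod_cons]
    noncomm_ring
  | @trans l1 l2 l3 h12 _ ih1 ih2 =>
    intro u w hu hw hl h1 h2 h3
    rw [ih1 u w hu hw hl h1 h2 h3]
    refine ih2 u w hu hw (fun c hc => hl c (h12.mem_iff.2 hc)) h1 h2 ?_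
    rw [← h12.length_eq]
    exact h3

/-- the case of square-zero letters -/
theorem Cm.sqz {N : ℕ} (hN : 3 ≤ N) (hnil : ∀ c ∈ C, c ^ N = 0)
    (hf : ∀ r : R, (N.factorial : ℤ) • r = 0 → r = 0) {c0 c1 : R} (h0 : c0 ∈ C) (h1 : c1 ∈ C)
    (X : Fin N → R) (hX : ∀ i, X i ∈ C) (hsq : ∀ i, X i * X i = 0) :
    c0 * (List.ofFn X).prod * c1 = 0 := by
  classical
  have e1 := hnil _ (C.sum_mem (fun i (_ : i ∈ (univ : Finset (Fin N))) => hX i))
  rw [sum_pow_words] at e1
  have e2 : ∑ f : Fin N → Fin N, c0 * (List.ofFn (fun j => X (f j))).prod * c1 = 0 := by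
    rw [← sum_mul, ← mul_sum, e1, mul_zero, zero_mul]
  have hmem : ∀ li : List (Fin N), ∀ c ∈ li.map X, c ∈ C := by
    intro li c hc
    obtain ⟨i, -, rfl⟩ := List.mem_map.1 hc
    exact hX i
  have hv : ∀ l1 l2 : List (Fin N), l1.Perm l2 → l1.length = N →
      c0 * (l1.map X).prod * c1 = c0 * (l2.map X).prod * c1 := by
    intro l1 l2 hp hl
    have k := h.perm (hp.map X) [c0] [c1] (by simpa using h0) (by simpa using h1) (hmem l1)
      (by simp) (by simp) (by simp; omega)
    simpa using k
  have hmap : ∀ f : Fin N → Fin N, List.ofFn (fun j => X (f j)) = (List.ofFn f).map X := by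
    intro f
    rw [List.map_ofFn]
    rfl
  have hinj : ∀ f : Fin N → Fin N, Function.Injective f →
      c0 * (List.ofFn (fun j => X (f j))).prod * c1 = c0 * (List.ofFn X).prod * c1 := by
    intro f hf'
    rw [hmap f]
    have e3 : List.ofFn X = (List.finRange N).map X := by
      rw [List.ofFn_eq_map]
    rw [e3]
    refine hv _ _ ?_ (List.length_ofFn)
    refine (List.perm_ext_iff_of_nodup (List.nodup_ofFn.2 hf') (List.nodup_finRange N)).2 ?_
    intro i
    have hs : Function.Surjective f := Finite.surjective_of_injective hf'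
    simp only [List.mem_finRange, iff_true, List.mem_ofFn]
    exact hs i
  have hnin : ∀ f : Fin N → Fin N, ¬ Function.Injective f →
      c0 * (List.ofFn (fun j => X (f j))).prod * c1 = 0 := by
    intro f hf'
    rw [hmap f]
    have e3 : ¬ (List.ofFn f).Nodup := fun hh => hf' (List.nodup_ofFn.1 hh)
    obtain ⟨i, hi⟩ := List.exists_duplicate_iff_not_nodup.2 e3
    rw [List.duplicate_iff_sublist] at hi
    obtain ⟨l, hl⟩ := hi.exists_perm_append
    rw [hv _ _ hl List.length_ofFn]
    simp only [List.map_append, List.map_cons, List.map_nil, List.prod_append, List.prod_cons,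
      List.prod_nil, mul_one]
    rw [hsq, zero_mul, mul_zero, zero_mul]
  have e4 : ∑ f : Fin N → Fin N, c0 * (List.ofFn (fun j => X (f j))).prod * c1 =
      ((univ.filter fun f : Fin N → Fin N => Function.Injective f).card : ℤ) •
        (c0 * (List.ofFn X).prod * c1) := by
    rw [← sum_filter_add_sum_filter_not univ (fun f : Fin N → Fin N => Function.Injective f)]
    have e5 : ∑ f ∈ univ.filter (fun f : Fin N → Fin N => ¬ Function.Injective f),
        c0 * (List.ofFn (fun j => X (f j))).prod * c1 = 0 := by
      refine sum_eq_zero fun f hf' => ?_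
      exact hnin f (mem_filter.1 hf').2
    have e6 : ∑ f ∈ univ.filter (fun f : Fin N → Fin N => Function.Injective f),
        c0 * (List.ofFn (fun j => X (f j))).prod * c1 =
        ∑ _f ∈ univ.filter (fun f : Fin N → Fin N => Function.Injective f),
          c0 * (List.ofFn X).prod * c1 := by
      refine sum_congr rfl fun f hf' => ?_
      exact hinj f (mem_filter.1 hf').2
    rw [e5, e6, add_zero, sum_const, ← natCast_zsmul]
  have e7 : (univ.filter fun f : Fin N → Fin N => Function.Injective f).card = N.factorial := by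
    have k1 : (univ.filter fun f : Fin N → Fin N => Function.Injective f).card =
        Fintype.card (Fin N ↪ Fin N) := by
      rw [← Fintype.card_subtype]
      exact Fintype.card_congr (Equiv.subtypeInjectiveEquivEmbedding (Fin N) (Fin N))
    rw [k1, Fintype.card_embedding_eq, Fintype.card_fin, Nat.descFactorial_self]
  rw [e2, e7] at e4
  exact hf _ e4.symm

/-- ALL WORDS. -/
theorem Cm.words {N : ℕ} (hN : 3 ≤ N) (hnil : ∀ c ∈ C, c ^ N = 0)
    (hf : ∀ r : R, (N.factorial : ℤ) • r = 0 → r = 0) (P : Set R) (hP : ∀ X ∈ P, X ∈ C)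
    (hsq : ∀ X ∈ P, X * X = 0)
    (hspan : ∀ f : R →+ R, (∀ X ∈ P, f X = 0) → ∀ c ∈ C, f c = 0)
    (l : List R) (hl : l.length = N + 2) (hlC : ∀ c ∈ l, c ∈ C) : l.prod = 0 := by
  have key : ∀ k : ℕ, ∀ u v : List R, v.length = k → u.length + v.length = N →
      (∀ c ∈ u, c ∈ P) → (∀ c ∈ v, c ∈ C) → ∀ c0 ∈ C, ∀ c1 ∈ C,
        c0 * (u.prod * v.prod) * c1 = 0 := by
    intro k
    induction k with
    | zero =>
      intro u v hv huv huP _ c0 h0 c1 h1
      have hv0 : v = [] := List.length_eq_zero_iff.1 hv
      subst hv0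
      rw [List.prod_nil, mul_one]
      have hu : u.length = N := by simpa using huv
      subst hu
      have k1 := h.sqz hN hnil hf h0 h1 (fun i => u.get i) (fun i => hP _ (huP _ (List.get_mem u i)))
        (fun i => hsq _ (huP _ (List.get_mem u i)))
      have e : List.ofFn (fun i => u.get i) = u := List.ofFn_get u
      rw [e] at k1
      exact k1
    | succ k ih =>
      intro u v hv huv huP hvC c0 h0 c1 h1
      match v, hv, huv, hvC with
      | c :: v, hv, huv, hvC =>
        rw [List.prod_cons]
        have k1 := hspan (((AddMonoidHom.mulRight c1).comp (AddMonoidHom.mulRight v.prod)).comp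
          (AddMonoidHom.mulLeft (c0 * u.prod))) (by
            intro X hX
            have k2 := ih (u ++ [X]) v (by simpa using hv) (by
              rw [List.length_append, List.length_singleton]
              rw [List.length_cons] at huv
              omega) (by
              intro c hc
              rcases List.mem_append.1 hc with hc | hc
              · exact huP c hc
              · rw [List.mem_singleton] at hc
                rw [hc]
                exact hX) (fun c hc => hvC c (by simp [hc])) c0 h0 c1 h1
            show c0 * u.prod * X * v.prod * c1 = 0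
            rw [← k2, List.prod_append, List.prod_cons, List.prod_nil, mul_one]
            simp only [mul_assoc]) c (hvC c (by simp))
        have k3 : c0 * u.prod * c * v.prod * c1 = 0 := k1
        rw [← k3]
        simp only [mul_assoc]
  match l, hl, hlC with
  | c0 :: l', hl, hlC =>
    rcases List.eq_nil_or_concat l' with rfl | ⟨v, c1, rfl⟩
    · simp at hl
    · rw [List.concat_eq_append] at hl hlC ⊢
      have hv : v.length = N := by
        simp only [List.length_cons, List.length_append, List.length_nil] at hl
        omega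
      have k1 := key N [] v hv (by simpa using hv) (by simp) (fun c hc => hlC c (by simp [hc])) c0
        (hlC c0 (by simp)) c1 (hlC c1 (by simp))
      rw [List.prod_nil, one_mul] at k1
      rw [List.prod_cons, List.prod_append, List.prod_cons, List.prod_nil, mul_one, ← mul_assoc]
      exact k1

end Pool.Agent.H.MP_e16c79_al.SP
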