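import Mathlib

/-!
# MP_e16c79_al: special Jordan rings of bounded nil index
-/

set_option autoImplicit false

namespace Pool.Agent.H.MP_e16c79_al.SP

/-- The data: `J` is a group of elements of the ring `R` which contains the Jordan products
`(x y + y x) / 2`; `x ^ n = 0` for `x ∈ J`; the ring has no `2 n!`-torsion. -/
structure SData {R : Type*} [Ring R] (n : ℕ) (J : AddSubgroup R) : Prop where
  jor : ∀ x ∈ J, ∀ y ∈ J, ∃ z ∈ J, (2 : ℤ) • z = x * y + y * x
  nil : ∀ x ∈ J, x ^ n = 0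
  tf : ∀ r : R, ((2 * n.factorial : ℕ) : ℤ) • r = 0 → r = 0

namespace SData

variable {R : Type*} [Ring R] {n : ℕ} {J : AddSubgroup R} (h : SData n J)
include h

theorem two {r : R} (hr : (2 : ℤ) • r = 0) : r = 0 := by
  refine h.tf r ?_
  have e : ((2 * n.factorial : ℕ) : ℤ) = (n.factorial : ℤ) * 2 := by
    push_cast
    ring
  rw [e, mul_smul, hr, smul_zero]

theorem small {d : ℕ} (h1 : 1 ≤ d) (h2 : d ≤ n) {r : R} (hr : (d : ℤ) • r = 0) : r = 0 := by
  refine h.tf r ?_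
  obtain ⟨e, he⟩ := Nat.dvd_factorial h1 h2
  have e1 : ((2 * n.factorial : ℕ) : ℤ) = (2 * e : ℤ) * d := by
    rw [he]
    push_cast
    ring
  rw [e1, mul_smul, hr, smul_zero]

theorem fact {r : R} (hr : (n.factorial : ℤ) • r = 0) : r = 0 := by
  refine h.tf r ?_
  have e : ((2 * n.factorial : ℕ) : ℤ) = 2 * (n.factorial : ℤ) := by
    push_cast
    ring
  rw [e, mul_smul, hr, smul_zero]

theorem pow_mem {x : R} (hx : x ∈ J) (k : ℕ) : x ^ (k + 1) ∈ J := by
  induction k with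
  | zero => simpa using hx
  | succ k ih =>
    obtain ⟨z, hz, e⟩ := h.jor x hx _ ih
    have e1 : x ^ (k + 1 + 1) = z := by
      rw [← sub_eq_zero]
      refine h.two ?_
      rw [smul_sub, e, two_smul, ← pow_succ x (k + 1), ← pow_succ' x (k + 1)]
      exact sub_self _
    rw [e1]
    exact hz

/-- `x y x` -/
theorem u_mem {x y : R} (hx : x ∈ J) (hy : y ∈ J) : x * y * x ∈ J := by
  obtain ⟨z, hz, e⟩ := h.jor x hx y hy
  obtain ⟨w, hw, e2⟩ := h.jor x hx z hz
  have hxx := h.pow_mem hx 1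
  obtain ⟨v, hv, e3⟩ := h.jor _ hxx y hy
  have e4 : x * y * x = (2 : ℤ) • w - v := by
    rw [← sub_eq_zero]
    refine h.two ?_
    have e5 : (2 : ℤ) • (x * y * x - ((2 : ℤ) • w - v)) =
        (2 : ℤ) • (x * y * x) - (2 : ℤ) • ((2 : ℤ) • w) + (2 : ℤ) • v := by
      rw [smul_sub, smul_sub]
      abel
    rw [e5, e2, e3]
    have e6 : (2 : ℤ) • (x * z + z * x) = x * ((2 : ℤ) • z) + ((2 : ℤ) • z) * x := by
      rw [smul_add, mul_smul_comm, smul_mul_assoc]
    rw [e6, e]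
    have e7 : x ^ (1 + 1) = x * x := by rw [pow_succ, pow_one]
    rw [e7]
    noncomm_ring
  rw [e4]
  exact J.sub_mem (J.zsmul_mem hw 2) hv

/-- `x y z + z y x` -/
theorem tri_mem {x y z : R} (hx : x ∈ J) (hy : y ∈ J) (hz : z ∈ J) :
    x * y * z + z * y * x ∈ J := by
  have e : x * y * z + z * y * x = (x + z) * y * (x + z) - x * y * x - z * y * z := by
    noncomm_ring
  rw [e]
  exact J.sub_mem (J.sub_mem (h.u_mem (J.add_mem hx hz) hy) (h.u_mem hx hy)) (h.u_mem hz hy)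

theorem two_mem {x y : R} (hx : x ∈ J) (hy : y ∈ J) : x * y + y * x ∈ J := by
  obtain ⟨z, hz, e⟩ := h.jor x hx y hy
  rw [← e]
  exact J.zsmul_mem hz 2

end SData

end Pool.Agent.H.MP_e16c79_al.SP
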