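import Pool.Agent.H.MP_e16c79_al.SP.Quot
import Pool.Agent.H.MP_e16c79_al.SP.Comm
import Pool.Agent.H.MP_e16c79_al.HS.Pol

/-!
# MP_e16c79_al: special Jordan rings of bounded nil index, the induction
-/

set_option autoImplicit false

namespace Pool.Agent.H.MP_e16c79_al.SP

open Finset

universe u

/-- the statement on five powers -/
def RStmt : Prop :=
  ∀ (R : Type u) [Ring R] (n : ℕ) (J : AddSubgroup R), 3 ≤ n → SData n J →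
    ∀ x1 ∈ J, ∀ x2 ∈ J, ∀ x3 ∈ J, ∀ x4 ∈ J, ∀ x5 ∈ J,
      x1 ^ (n - 1) * (x2 ^ (n - 1) * x3 ^ (n - 1) - x3 ^ (n - 1) * x2 ^ (n - 1)) * x4 ^ (n - 1) *
        x5 ^ (n - 1) = 0 ∧
      x1 ^ (n - 1) * x2 ^ (n - 1) * (x3 ^ (n - 1) * x4 ^ (n - 1) - x4 ^ (n - 1) * x3 ^ (n - 1)) *
        x5 ^ (n - 1) = 0

section powers

variable {R : Type u} [Ring R]

/-- the factor -/
abbrev MM (n : ℕ) : ℤ := ((2 * n.factorial : ℕ) : ℤ)

/-- the saturated span of the `m`-th powers -/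
def Cp (m : ℕ) (J : AddSubgroup R) : AddSubgroup R :=
  sat (MM (m + 1)) (AddSubgroup.closure {w | ∃ x ∈ J, w = x ^ m})

variable {m : ℕ} {J : AddSubgroup R} (h : SData (m + 1) J)
include h

theorem pow_mem_Cp {x : R} (hx : x ∈ J) : x ^ m ∈ Cp m J :=
  le_sat _ _ (AddSubgroup.subset_closure ⟨x, hx, rfl⟩)

theorem Cp_small {d : ℕ} (h1 : 1 ≤ d) (h2 : d ≤ m + 1) {w : R} (hw : (d : ℤ) • w ∈ Cp m J) :
    w ∈ Cp m J := by
  obtain ⟨e, he⟩ := Nat.dvd_factorial h1 h2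
  refine sat_sat 1 ?_
  have e1 : (MM (m + 1)) ^ 1 • w = (2 * e : ℤ) • ((d : ℤ) • w) := by
    rw [pow_one, ← mul_smul, MM, he]
    congr 1
    push_cast
    ring
  rw [e1]
  exact (Cp m J).zsmul_mem hw _

theorem cf_mem {x v : R} (hx : x ∈ J) (hv : v ∈ J) (k : ℕ) : HS.cf x v m k ∈ Cp m J := by
  by_cases hk : m < k
  · rw [HS.cf_big x v m k hk]
    exact (Cp m J).zero_mem
  have hk' : k < m + 1 := by omega
  have key := HS.vand (M := R ⧸ Cp m J) m (by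
    intro d h1 h2 r hr
    obtain ⟨w, rfl⟩ := QuotientAddGroup.mk_surjective r
    rw [← QuotientAddGroup.mk_zsmul, QuotientAddGroup.eq_zero_iff] at hr
    rw [QuotientAddGroup.eq_zero_iff]
    exact Cp_small h h1 (by omega) hr) (fun k => QuotientAddGroup.mk (HS.cf x v m k)) (by
    intro i
    have e := HS.cf_sum x v m ((i : ℕ) : ℤ)
    rw [← Fin.sum_univ_eq_sum_range (fun k => (((i : ℕ) : ℤ)) ^ k • HS.cf x v m k)] at e
    have e2 := congrArg (QuotientAddGroup.mk' (Cp m J)) e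
    rw [map_sum] at e2
    simp only [map_zsmul] at e2
    refine e2.symm.trans ?_
    rw [QuotientAddGroup.mk'_apply, QuotientAddGroup.eq_zero_iff]
    exact pow_mem_Cp h (J.add_mem hx (J.zsmul_mem hv _))) ⟨k, hk'⟩
  exact (QuotientAddGroup.eq_zero_iff _).1 key

theorem b_mem (hm : 1 ≤ m) {x b : R} (hx : x ∈ J) (hb : b ∈ J) :
    x ^ m * b + b * x ^ m ∈ Cp m J := by
  obtain ⟨m', rfl⟩ : ∃ m', m = m' + 1 := ⟨m - 1, by omega⟩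
  have h1 := cf_mem h hx (h.two_mem hx hb) 1
  rw [HS.cf_one] at h1
  have h2 := HS.lin (J := J) (m' + 1) (fun d h1 h2 r hr => h.small h1 h2 hr) h.nil hx hb
  have h3 : x ^ (m' + 1) * b + b * x ^ (m' + 1) =
      (2 : ℤ) • ∑ p ∈ antidiagonal (m' + 1), x ^ p.1 * b * x ^ p.2 -
        ∑ p ∈ antidiagonal m', x ^ p.1 * (x * b + b * x) * x ^ p.2 := by
    have e1 : ∑ p ∈ antidiagonal m', x ^ p.1 * (x * b + b * x) * x ^ p.2 =
        ∑ p ∈ antidiagonal m', x ^ (p.1 + 1) * b * x ^ p.2 +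
          ∑ p ∈ antidiagonal m', x ^ p.1 * b * x ^ (p.2 + 1) := by
      rw [← sum_add_distrib]
      refine sum_congr rfl fun p _ => ?_
      rw [pow_succ x p.1, pow_succ' x p.2]
      noncomm_ring
    have e2 := Finset.Nat.sum_antidiagonal_succ (n := m')
      (f := fun p => x ^ p.1 * b * x ^ p.2)
    have e3 := Finset.Nat.sum_antidiagonal_succ' (n := m')
      (f := fun p => x ^ p.1 * b * x ^ p.2)
    simp only [pow_zero, one_mul, mul_one] at e2 e3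
    rw [two_smul]
    nth_rewrite 1 [e2]
    rw [e3, e1]
    abel
  rw [h3, h2, smul_zero, zero_sub]
  exact (Cp (m' + 1) J).neg_mem h1

theorem Cp_jor (hm : 1 ≤ m) {c j : R} (hc : c ∈ Cp m J) (hj : j ∈ J) :
    c * j + j * c ∈ Cp m J := by
  have h1 := sat_closure_le (M := MM (m + 1)) (T := AddSubgroup.closure {w | ∃ x ∈ J, w = x ^ m})
    (AddMonoidHom.mulRight j + AddMonoidHom.mulLeft j) (by
      rintro w ⟨x, hx, rfl⟩
      exact b_mem h hm hx hj) c hc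
  exact h1

theorem hspan (f : R →+ R) (hf : ∀ x ∈ J, f (x ^ m) = 0) {c : R} (hc : c ∈ Cp m J) : f c = 0 := by
  obtain ⟨k, hk⟩ := hc
  have h1 : AddSubgroup.closure {w | ∃ x ∈ J, w = x ^ m} ≤ f.ker := by
    refine (AddSubgroup.closure_le _).2 ?_
    rintro w ⟨x, hx, rfl⟩
    exact hf x hx
  have h2 : f ((MM (m + 1)) ^ k • c) = 0 := h1 hk
  rw [map_zsmul] at h2
  exact tf_pow h.tf k h2

theorem Cp_nil (hm : 1 ≤ m) {c : R} (hc : c ∈ Cp m J) : c ^ (m + 1) = 0 := by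
  obtain ⟨k, hk⟩ := hc
  obtain ⟨m, rfl⟩ : ∃ m', m = m' + 1 := ⟨m - 1, by omega⟩
  have h1 : AddSubgroup.closure {w | ∃ x ∈ J, w = x ^ (m + 1)} ≤ J := by
    refine (AddSubgroup.closure_le _).2 ?_
    rintro w ⟨x, hx, rfl⟩
    exact h.pow_mem hx m
  have h2 := h.nil _ (h1 hk)
  rw [smul_pow, ← pow_mul] at h2
  exact tf_pow h.tf _ h2

theorem Cp_cm (hR : RStmt.{u}) (hm : 2 ≤ m) : Cm (Cp m J) := by
  have h0 := fun x1 h1 x2 h2 x3 h3 x4 h4 x5 h5 =>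
    hR R (m + 1) J (by omega) h x1 h1 x2 h2 x3 h3 x4 h4 x5 h5
  simp only [Nat.add_sub_cancel] at h0
  have span := fun (f : R →+ R) (hf : ∀ x ∈ J, f (x ^ m) = 0) (c : R) (hc : c ∈ Cp m J) =>
    hspan h f hf hc
  constructor
  · have a1 : ∀ x1 ∈ J, ∀ x2 ∈ J, ∀ x3 ∈ J, ∀ x4 ∈ J, ∀ c5 ∈ Cp m J,
        x1 ^ m * (x2 ^ m * x3 ^ m - x3 ^ m * x2 ^ m) * x4 ^ m * c5 = 0 := by
      intro x1 h1 x2 h2 x3 h3 x4 h4
      exact span (AddMonoidHom.mulLeft (x1 ^ m * (x2 ^ m * x3 ^ m - x3 ^ m * x2 ^ m) * x4 ^ m))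
        (fun x5 h5 => (h0 x1 h1 x2 h2 x3 h3 x4 h4 x5 h5).1)
    have a2 : ∀ x1 ∈ J, ∀ x2 ∈ J, ∀ x3 ∈ J, ∀ c5 ∈ Cp m J, ∀ c4 ∈ Cp m J,
        x1 ^ m * (x2 ^ m * x3 ^ m - x3 ^ m * x2 ^ m) * c4 * c5 = 0 := by
      intro x1 h1 x2 h2 x3 h3 c5 h5
      exact span ((AddMonoidHom.mulRight c5).comp (AddMonoidHom.mulLeft
        (x1 ^ m * (x2 ^ m * x3 ^ m - x3 ^ m * x2 ^ m))))
        (fun x4 h4 => a1 x1 h1 x2 h2 x3 h3 x4 h4 c5 h5)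
    have a3 : ∀ x1 ∈ J, ∀ x2 ∈ J, ∀ c5 ∈ Cp m J, ∀ c4 ∈ Cp m J, ∀ c3 ∈ Cp m J,
        x1 ^ m * (x2 ^ m * c3 - c3 * x2 ^ m) * c4 * c5 = 0 := by
      intro x1 h1 x2 h2 c5 h5 c4 h4
      exact span ((AddMonoidHom.mulRight c5).comp ((AddMonoidHom.mulRight c4).comp
        ((AddMonoidHom.mulLeft (x1 ^ m)).comp
          (AddMonoidHom.mulLeft (x2 ^ m) - AddMonoidHom.mulRight (x2 ^ m)))))
        (fun x3 h3 => a2 x1 h1 x2 h2 x3 h3 c5 h5 c4 h4)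
    have a4 : ∀ x1 ∈ J, ∀ c5 ∈ Cp m J, ∀ c4 ∈ Cp m J, ∀ c3 ∈ Cp m J, ∀ c2 ∈ Cp m J,
        x1 ^ m * (c2 * c3 - c3 * c2) * c4 * c5 = 0 := by
      intro x1 h1 c5 h5 c4 h4 c3 h3
      exact span ((AddMonoidHom.mulRight c5).comp ((AddMonoidHom.mulRight c4).comp
        ((AddMonoidHom.mulLeft (x1 ^ m)).comp
          (AddMonoidHom.mulRight c3 - AddMonoidHom.mulLeft c3))))
        (fun x2 h2 => a3 x1 h1 x2 h2 c5 h5 c4 h4 c3 h3)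
    intro c1 h1 c2 h2 c3 h3 c4 h4 c5 h5
    have a5 := span ((AddMonoidHom.mulRight c5).comp ((AddMonoidHom.mulRight c4).comp
      (AddMonoidHom.mulRight (c2 * c3 - c3 * c2))))
      (fun x1 h1 => a4 x1 h1 c5 h5 c4 h4 c3 h3 c2 h2) c1 h1
    exact a5
  · have a1 : ∀ x1 ∈ J, ∀ x2 ∈ J, ∀ x3 ∈ J, ∀ x4 ∈ J, ∀ c5 ∈ Cp m J,
        x1 ^ m * x2 ^ m * (x3 ^ m * x4 ^ m - x4 ^ m * x3 ^ m) * c5 = 0 := by
      intro x1 h1 x2 h2 x3 h3 x4 h4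
      exact span (AddMonoidHom.mulLeft (x1 ^ m * x2 ^ m * (x3 ^ m * x4 ^ m - x4 ^ m * x3 ^ m)))
        (fun x5 h5 => (h0 x1 h1 x2 h2 x3 h3 x4 h4 x5 h5).2)
    have a2 : ∀ x1 ∈ J, ∀ x2 ∈ J, ∀ x3 ∈ J, ∀ c5 ∈ Cp m J, ∀ c4 ∈ Cp m J,
        x1 ^ m * x2 ^ m * (x3 ^ m * c4 - c4 * x3 ^ m) * c5 = 0 := by
      intro x1 h1 x2 h2 x3 h3 c5 h5
      exact span ((AddMonoidHom.mulRight c5).comp ((AddMonoidHom.mulLeft (x1 ^ m * x2 ^ m)).comp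
        (AddMonoidHom.mulLeft (x3 ^ m) - AddMonoidHom.mulRight (x3 ^ m))))
        (fun x4 h4 => a1 x1 h1 x2 h2 x3 h3 x4 h4 c5 h5)
    have a3 : ∀ x1 ∈ J, ∀ x2 ∈ J, ∀ c5 ∈ Cp m J, ∀ c4 ∈ Cp m J, ∀ c3 ∈ Cp m J,
        x1 ^ m * x2 ^ m * (c3 * c4 - c4 * c3) * c5 = 0 := by
      intro x1 h1 x2 h2 c5 h5 c4 h4
      exact span ((AddMonoidHom.mulRight c5).comp ((AddMonoidHom.mulLeft (x1 ^ m * x2 ^ m)).comp
        (AddMonoidHom.mulRight c4 - AddMonoidHom.mulLeft c4)))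
        (fun x3 h3 => a2 x1 h1 x2 h2 x3 h3 c5 h5 c4 h4)
    have a4 : ∀ x1 ∈ J, ∀ c5 ∈ Cp m J, ∀ c4 ∈ Cp m J, ∀ c3 ∈ Cp m J, ∀ c2 ∈ Cp m J,
        x1 ^ m * c2 * (c3 * c4 - c4 * c3) * c5 = 0 := by
      intro x1 h1 c5 h5 c4 h4 c3 h3
      exact span ((AddMonoidHom.mulRight c5).comp ((AddMonoidHom.mulRight
        (c3 * c4 - c4 * c3)).comp (AddMonoidHom.mulLeft (x1 ^ m))))
        (fun x2 h2 => a3 x1 h1 x2 h2 c5 h5 c4 h4 c3 h3)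
    intro c1 h1 c2 h2 c3 h3 c4 h4 c5 h5
    have a5 := span ((AddMonoidHom.mulRight c5).comp ((AddMonoidHom.mulRight
      (c3 * c4 - c4 * c3)).comp (AddMonoidHom.mulRight c2)))
      (fun x1 h1 => a4 x1 h1 c5 h5 c4 h4 c3 h3 c2 h2) c1 h1
    exact a5

/-- products of `m + 3` elements of the span of the `m`-th powers are zero -/
theorem Cp_words (hR : RStmt.{u}) (hm : 2 ≤ m) (l : List R) (hl : l.length = m + 1 + 2)
    (hlC : ∀ c ∈ l, c ∈ Cp m J) : l.prod = 0 := by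
  refine (Cp_cm h hR hm).words (N := m + 1) (by omega) (fun c hc => Cp_nil h (by omega) hc)
    (fun r hr => h.fact hr) {w | ∃ x ∈ J, w = x ^ m} ?_ ?_ ?_ l hl hlC
  · rintro X ⟨x, hx, rfl⟩
    exact pow_mem_Cp h hx
  · rintro X ⟨x, hx, rfl⟩
    rw [← pow_add]
    have e : m + m = (m + 1) + (m - 1) := by omega
    rw [e, pow_add, h.nil x hx, zero_mul]
  · intro f hf c hc
    exact hspan h f (fun x hx => hf _ ⟨x, hx, rfl⟩) hc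

end powers

end Pool.Agent.H.MP_e16c79_al.SP
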