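import Pool.Agent.H.MP_e16c79_al.SP.Frame

/-!
# MP_e16c79_al: special Jordan rings of bounded nil index, the ideal of the powers
-/

set_option autoImplicit false

namespace Pool.Agent.H.MP_e16c79_al.SP

open Finset

universe u

variable {R : Type u} [Ring R]

/-- sums of products `r c1 ... ck` -/
def GG (m : ℕ) (J : AddSubgroup R) : ℕ → AddSubgroup R
  | 0 => ⊤
  | k + 1 => AddSubgroup.closure {w | ∃ v ∈ GG m J k, ∃ c ∈ Cp m J, w = v * c}

variable {m : ℕ} {J : AddSubgroup R}

theorem GG_mul {k : ℕ} {v c : R} (hv : v ∈ GG m J k) (hc : c ∈ Cp m J) :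
    v * c ∈ GG m J (k + 1) :=
  AddSubgroup.subset_closure ⟨v, hv, c, hc, rfl⟩

theorem GG_left (k : ℕ) (r : R) : ∀ w ∈ GG m J k, r * w ∈ GG m J k := by
  induction k with
  | zero => exact fun _ _ => trivial
  | succ k ih =>
    have h1 : GG m J (k + 1) ≤ (GG m J (k + 1)).comap (AddMonoidHom.mulLeft r) := by
      refine (AddSubgroup.closure_le _).2 ?_
      rintro w ⟨v, hv, c, hc, rfl⟩
      show r * (v * c) ∈ GG m J (k + 1)
      rw [← mul_assoc]
      exact GG_mul (ih v hv) hc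
    exact h1

/-- the saturation -/
abbrev SG (m : ℕ) (J : AddSubgroup R) (k : ℕ) : AddSubgroup R := sat (MM (m + 1)) (GG m J k)

theorem SG_left (k : ℕ) (r : R) {w : R} (hw : w ∈ SG m J k) : r * w ∈ SG m J k := by
  obtain ⟨j, hj⟩ := hw
  refine ⟨j, ?_⟩
  rw [← mul_smul_comm]
  exact GG_left k r _ hj

theorem SG_mul {k : ℕ} {v c : R} (hv : v ∈ SG m J k) (hc : c ∈ Cp m J) :
    v * c ∈ SG m J (k + 1) := by
  obtain ⟨j, hj⟩ := hv
  refine ⟨j, ?_⟩
  rw [← smul_mul_assoc]
  exact GG_mul hj hc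

theorem SG_J (h : SData (m + 1) J) (hm : 1 ≤ m) (k : ℕ) {j : R} (hj : j ∈ J) :
    ∀ w ∈ SG m J k, w * j ∈ SG m J k := by
  induction k with
  | zero => exact fun _ _ => le_sat _ _ trivial
  | succ k ih =>
    refine sat_closure_le (AddMonoidHom.mulRight j) ?_
    rintro w ⟨v, hv, c, hc, rfl⟩
    show v * c * j ∈ SG m J (k + 1)
    have e : v * c * j = v * (c * j + j * c) - v * j * c := by noncomm_ring
    rw [e]
    refine AddSubgroup.sub_mem _ (SG_mul (le_sat _ _ hv) (Cp_jor h hm hc hj)) ?_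
    exact SG_mul (ih v (le_sat _ _ hv)) hc

theorem SG_right (h : SData (m + 1) J) (hm : 1 ≤ m) (hgen : Subring.closure (J : Set R) = ⊤)
    (k : ℕ) (r : R) : ∀ w ∈ SG m J k, w * r ∈ SG m J k := by
  have hr : r ∈ Subring.closure (J : Set R) := by
    rw [hgen]
    trivial
  induction hr using Subring.closure_induction with
  | mem x hx => exact SG_J h hm k hx
  | zero =>
    intro w _
    rw [mul_zero]
    exact AddSubgroup.zero_mem _
  | one =>
    intro w hw
    rw [mul_one]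
    exact hw
  | add x y _ _ ix iy =>
    intro w hw
    rw [mul_add]
    exact AddSubgroup.add_mem _ (ix w hw) (iy w hw)
  | neg x _ ix =>
    intro w hw
    rw [mul_neg]
    exact AddSubgroup.neg_mem _ (ix w hw)
  | mul x y _ _ ix iy =>
    intro w hw
    rw [← mul_assoc]
    exact iy _ (ix w hw)

/-- the ideal -/
theorem NN_TI (h : SData (m + 1) J) (hm : 1 ≤ m) (hgen : Subring.closure (J : Set R) = ⊤) :
    TI (SG m J 1) where
  left := fun r _ hw => SG_left 1 r hw
  right := fun w hw r => SG_right h hm hgen 1 r w hw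

theorem SG_NN (h : SData (m + 1) J) (hm : 1 ≤ m) (hgen : Subring.closure (J : Set R) = ⊤)
    {k : ℕ} {w : R} (hw : w ∈ SG m J k) : ∀ v ∈ SG m J 1, w * v ∈ SG m J (k + 1) := by
  refine sat_closure_le (AddMonoidHom.mulLeft w) ?_
  rintro x ⟨u, _, c, hc, rfl⟩
  show w * (u * c) ∈ SG m J (k + 1)
  rw [← mul_assoc]
  exact SG_mul (SG_right h hm hgen k u w hw) hc

theorem SG_list (h : SData (m + 1) J) (hm : 1 ≤ m) (hgen : Subring.closure (J : Set R) = ⊤)
    (l : List R) (hl : ∀ v ∈ l, v ∈ SG m J 1) :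
    ∀ (k : ℕ) (w : R), w ∈ SG m J k → w * l.prod ∈ SG m J (k + l.length) := by
  induction l with
  | nil =>
    intro k w hw
    rw [List.prod_nil, mul_one]
    exact hw
  | cons v l ih =>
    intro k w hw
    rw [List.prod_cons, ← mul_assoc]
    have k1 := ih (fun x hx => hl x (by simp [hx])) (k + 1) (w * v)
      (SG_NN h hm hgen hw v (hl v (by simp)))
    rw [List.length_cons]
    have e : k + (l.length + 1) = k + 1 + l.length := by omega
    rw [e]
    exact k1

theorem GG_words (k : ℕ) : GG m J k ≤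
    AddSubgroup.closure {w | ∃ r : R, ∃ l : List R, l.length = k ∧ (∀ c ∈ l, c ∈ Cp m J) ∧
      w = r * l.prod} := by
  induction k with
  | zero =>
    intro w _
    exact AddSubgroup.subset_closure ⟨w, [], rfl, by simp, by simp⟩
  | succ k ih =>
    refine (AddSubgroup.closure_le _).2 ?_
    rintro w ⟨v, hv, c, hc, rfl⟩
    have h1 : AddSubgroup.closure {w | ∃ r : R, ∃ l : List R, l.length = k ∧
        (∀ c ∈ l, c ∈ Cp m J) ∧ w = r * l.prod} ≤
        (AddSubgroup.closure {w | ∃ r : R, ∃ l : List R, l.length = k + 1 ∧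
          (∀ c ∈ l, c ∈ Cp m J) ∧ w = r * l.prod}).comap (AddMonoidHom.mulRight c) := by
      refine (AddSubgroup.closure_le _).2 ?_
      rintro w ⟨r, l, hl, hlC, rfl⟩
      refine AddSubgroup.subset_closure ⟨r, l ++ [c], by simp [hl], ?_, ?_⟩
      · intro x hx
        rcases List.mem_append.1 hx with hx | hx
        · exact hlC x hx
        · rw [List.mem_singleton] at hx
          rw [hx]
          exact hc
      · show r * l.prod * c = _
        rw [List.prod_append, List.prod_cons, List.prod_nil, mul_one, mul_assoc]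
    exact h1 (ih hv)

/-- THE IDEAL IS NILPOTENT: the product of `m + 3` elements is zero. -/
theorem NN_nilp (h : SData (m + 1) J) (hR : RStmt.{u}) (hm : 2 ≤ m)
    (hgen : Subring.closure (J : Set R) = ⊤) (l : List R) (hl : l.length = m + 3)
    (hlN : ∀ v ∈ l, v ∈ SG m J 1) : l.prod = 0 := by
  have h1 := SG_list h (by omega) hgen l hlN 0 1 (le_sat _ _ trivial)
  rw [one_mul, zero_add, hl] at h1
  have h2 : GG m J (m + 3) = ⊥ := by
    rw [eq_bot_iff]
    refine (GG_words (m + 3)).trans ((AddSubgroup.closure_le _).2 ?_)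
    rintro w ⟨r, l, hl, hlC, rfl⟩
    show r * l.prod = 0
    rw [Cp_words h hR hm l hl hlC, mul_zero]
  obtain ⟨k, hk⟩ := h1
  rw [h2, AddSubgroup.mem_bot] at hk
  exact tf_pow h.tf k hk

/-- the quotient -/
theorem quot_data (h : SData (m + 1) J) (hm : 1 ≤ m)
    (hgen : Subring.closure (J : Set R) = ⊤) :
    SData m (J.map (pr (SG m J 1) (NN_TI h hm hgen)).toAddMonoidHom) where
  jor := by
    rintro _ ⟨x, hx, rfl⟩ _ ⟨y, hy, rfl⟩
    obtain ⟨z, hz, e⟩ := h.jor x hx y hy
    refine ⟨_, ⟨z, hz, rfl⟩, ?_⟩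
    show (2 : ℤ) • (pr (SG m J 1) (NN_TI h hm hgen)) z = _
    rw [← map_zsmul, e, map_add, map_mul, map_mul]
    rfl
  nil := by
    rintro _ ⟨x, hx, rfl⟩
    show (pr (SG m J 1) (NN_TI h hm hgen) x) ^ m = 0
    rw [← map_pow, pr_zero]
    refine le_sat _ _ ?_
    have k1 := GG_mul (k := 0) (m := m) (J := J) (v := 1) trivial (pow_mem_Cp h hx)
    rw [one_mul] at k1
    exact k1
  tf := by
    intro r hr
    obtain ⟨r, rfl⟩ := pr_surj (SG m J 1) (NN_TI h hm hgen) r
    rw [← map_zsmul, pr_zero] at hr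
    rw [pr_zero]
    refine sat_sat 1 ?_
    have e1 : (MM (m + 1)) ^ 1 • r = ((m + 1 : ℕ) : ℤ) • (((2 * m.factorial : ℕ) : ℤ) • r) := by
      rw [pow_one, ← mul_smul, MM, Nat.factorial_succ]
      congr 1
      push_cast
      ring
    rw [e1]
    exact AddSubgroup.zsmul_mem _ hr _

theorem quot_gen (h : SData (m + 1) J) (hm : 1 ≤ m)
    (hgen : Subring.closure (J : Set R) = ⊤) :
    Subring.closure ((J.map (pr (SG m J 1) (NN_TI h hm hgen)).toAddMonoidHom :
      AddSubgroup (Q (SG m J 1) (NN_TI h hm hgen))) : Set (Q (SG m J 1) (NN_TI h hm hgen))) = ⊤ := by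
  have e : ((J.map (pr (SG m J 1) (NN_TI h hm hgen)).toAddMonoidHom :
      AddSubgroup (Q (SG m J 1) (NN_TI h hm hgen))) : Set (Q (SG m J 1) (NN_TI h hm hgen))) =
      (pr (SG m J 1) (NN_TI h hm hgen)) '' (J : Set R) := rfl
  rw [e, ← RingHom.map_closure, hgen, ← RingHom.range_eq_map]
  exact RingHom.range_eq_top.2 (pr_surj _ _)

/-- the bound -/
def kk : ℕ → ℕ
  | 0 => 0
  | 1 => 0
  | 2 => 1
  | n + 3 => kk (n + 2) + Nat.clog 2 (n + 5)

theorem kk_le (n : ℕ) : kk n ≤ n * Nat.clog 2 (n + 2) := by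
  match n with
  | 0 => exact Nat.zero_le _
  | 1 => exact Nat.zero_le _
  | 2 =>
    have h1 : 1 ≤ Nat.clog 2 (2 + 2) := Nat.clog_pos (by norm_num) (by norm_num)
    show 1 ≤ 2 * Nat.clog 2 (2 + 2)
    omega
  | n + 3 =>
    have h1 := kk_le (n + 2)
    have h2 : Nat.clog 2 (n + 2 + 2) ≤ Nat.clog 2 (n + 3 + 2) := Nat.clog_mono_right 2 (by omega)
    have h3 : (n + 2) * Nat.clog 2 (n + 2 + 2) ≤ (n + 2) * Nat.clog 2 (n + 3 + 2) :=
      Nat.mul_le_mul_left _ h2
    have h4 : (n + 3) * Nat.clog 2 (n + 3 + 2) =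
        (n + 2) * Nat.clog 2 (n + 3 + 2) + Nat.clog 2 (n + 3 + 2) := by ring
    show kk (n + 2) + Nat.clog 2 (n + 5) ≤ _
    have e : n + 5 = n + 3 + 2 := by omega
    rw [e]
    omega

/-- THE INDUCTION. -/
theorem main_ind (hR : RStmt.{u}) : ∀ (n : ℕ) (R : Type u) [Ring R] (J : AddSubgroup R), 1 ≤ n →
    SData n J → Subring.closure (J : Set R) = ⊤ → Dj J (kk n) = ⊥ := by
  intro n
  induction n with
  | zero =>
    intro R _ J hn
    omega
  | succ n ih =>
    intro R _ J _ h hgen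
    match n, ih, h with
    | 0, _, h =>
      show J = ⊥
      rw [eq_bot_iff]
      intro x hx
      have k1 := h.nil x hx
      rw [zero_add, pow_one] at k1
      exact k1
    | 1, _, h =>
      show jsq J = ⊥
      rw [eq_bot_iff]
      refine (AddSubgroup.closure_le _).2 ?_
      rintro z ⟨x, hx, y, hy, e⟩
      show z = 0
      have k1 := h.nil _ (J.add_mem hx hy)
      have k2 := h.nil _ hx
      have k3 := h.nil _ hy
      refine h.two ?_
      rw [e]
      have e1 : x * y + y * x = (x + y) ^ (1 + 1) - x ^ (1 + 1) - y ^ (1 + 1) := by noncomm_ring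
      rw [e1, k1, k2, k3]
      simp
    | n + 2, ih, h =>
      have hm : 1 ≤ n + 2 := by omega
      have k1 := ih (Q (SG (n + 2) J 1) (NN_TI h hm hgen)) _ (by omega) (quot_data h hm hgen)
        (quot_gen h hm hgen)
      have k2 := Dj_map (pr (SG (n + 2) J 1) (NN_TI h hm hgen)) J (kk (n + 2))
      rw [k1] at k2
      have k3 : ∀ x ∈ Dj J (kk (n + 2)), x ∈ SG (n + 2) J 1 := by
        intro x hx
        have k4 : (pr (SG (n + 2) J 1) (NN_TI h hm hgen)) x ∈
            (⊥ : AddSubgroup (Q (SG (n + 2) J 1) (NN_TI h hm hgen))) := k2 ⟨x, hx, rfl⟩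
        rw [AddSubgroup.mem_bot] at k4
        exact pr_zero.1 k4
      show Dj J (kk (n + 2) + Nat.clog 2 (n + 5)) = ⊥
      rw [Dj_add]
      refine Dj_nilp (m := n + 2 + 3) (Nat.le_pow_clog (by norm_num) _) ?_ (fun r hr => h.two hr)
      intro l hl hlB
      exact NN_nilp h hR (by omega) hgen l hl (fun b hb => k3 b (hlB b hb))

end Pool.Agent.H.MP_e16c79_al.SP
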