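import Pool.Agent.H.MP_e16c79_al.SP.Defs

/-!
# MP_e16c79_al: quotients and saturation
-/

set_option autoImplicit false

namespace Pool.Agent.H.MP_e16c79_al.SP

universe u

variable {R : Type u} [Ring R]

/-- a two-sided ideal -/
structure TI (N : AddSubgroup R) : Prop where
  left : ∀ r : R, ∀ w ∈ N, r * w ∈ N
  right : ∀ w ∈ N, ∀ r : R, w * r ∈ N

/-- the congruence -/
def con (N : AddSubgroup R) (h : TI N) : RingCon R where
  r a b := a - b ∈ N
  iseqv := by
    constructor
    · intro a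
      show a - a ∈ N
      rw [sub_self]
      exact N.zero_mem
    · intro a b hab
      show b - a ∈ N
      rw [← neg_sub]
      exact N.neg_mem hab
    · intro a b c hab hbc
      show a - c ∈ N
      have e : a - c = (a - b) + (b - c) := by abel
      rw [e]
      exact N.add_mem hab hbc
  add' := by
    intro a b c d hab hcd
    show (a + c) - (b + d) ∈ N
    have e : (a + c) - (b + d) = (a - b) + (c - d) := by abel
    rw [e]
    exact N.add_mem hab hcd
  mul' := by
    intro a b c d hab hcd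
    show a * c - b * d ∈ N
    have e : a * c - b * d = (a - b) * c + b * (c - d) := by noncomm_ring
    rw [e]
    exact N.add_mem (h.right _ hab c) (h.left b _ hcd)

/-- the quotient ring -/
abbrev Q (N : AddSubgroup R) (h : TI N) := (con N h).Quotient

/-- the projection -/
def pr (N : AddSubgroup R) (h : TI N) : R →+* Q N h := (con N h).mk'

theorem pr_surj (N : AddSubgroup R) (h : TI N) : Function.Surjective (pr N h) :=
  (con N h).mk'_surjective

theorem pr_eq {N : AddSubgroup R} {h : TI N} {a b : R} : pr N h a = pr N h b ↔ a - b ∈ N := by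
  show ((a : Q N h) = (b : Q N h)) ↔ _
  rw [RingCon.eq]
  rfl

theorem pr_zero {N : AddSubgroup R} {h : TI N} {a : R} : pr N h a = 0 ↔ a ∈ N := by
  rw [← map_zero (pr N h), pr_eq, sub_zero]

/-- elements killed by a power of `M` modulo `I` -/
def sat (M : ℤ) (I : AddSubgroup R) : AddSubgroup R where
  carrier := {w | ∃ k : ℕ, (M ^ k) • w ∈ I}
  zero_mem' := ⟨0, by
    rw [smul_zero]
    exact I.zero_mem⟩
  add_mem' := by
    rintro a b ⟨k, hk⟩ ⟨l, hl⟩
    refine ⟨k + l, ?_⟩
    have e1 : (M ^ (k + l)) • (a + b) =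
        (M ^ l) • ((M ^ k) • a) + (M ^ k) • ((M ^ l) • b) := by
      rw [smul_add, ← mul_smul, ← mul_smul, pow_add, mul_comm (M ^ l)]
    rw [e1]
    exact I.add_mem (I.zsmul_mem hk _) (I.zsmul_mem hl _)
  neg_mem' := by
    rintro a ⟨k, hk⟩
    refine ⟨k, ?_⟩
    rw [smul_neg]
    exact I.neg_mem hk

theorem le_sat (M : ℤ) (I : AddSubgroup R) : I ≤ sat M I := fun w hw => ⟨0, by
  rw [pow_zero, one_smul]
  exact hw⟩

theorem sat_sat {M : ℤ} {I : AddSubgroup R} {w : R} (k : ℕ) (h : (M ^ k) • w ∈ sat M I) :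
    w ∈ sat M I := by
  obtain ⟨l, hl⟩ := h
  refine ⟨l + k, ?_⟩
  rw [pow_add, mul_smul]
  exact hl

/-- to be in a saturated group it is enough to be in it on generators -/
theorem sat_closure_le {M : ℤ} {S : Set R} {T : AddSubgroup R} (f : R →+ R)
    (h : ∀ x ∈ S, f x ∈ sat M T) : ∀ w ∈ sat M (AddSubgroup.closure S), f w ∈ sat M T := by
  rintro w ⟨k, hk⟩
  have h1 : AddSubgroup.closure S ≤ (sat M T).comap f := (AddSubgroup.closure_le _).2 h
  have h2 : f ((M ^ k) • w) ∈ sat M T := h1 hk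
  rw [map_zsmul] at h2
  exact sat_sat k h2

/-- multiples of torsion-free elements -/
theorem tf_pow {M : ℤ} (hM : ∀ r : R, M • r = 0 → r = 0) (k : ℕ) {r : R} (h : (M ^ k) • r = 0) :
    r = 0 := by
  induction k with
  | zero => simpa using h
  | succ k ih =>
    refine ih (hM _ ?_)
    rw [← mul_smul, ← pow_succ']
    exact h

/-- the Jordan square of a group -/
def jsq (D : AddSubgroup R) : AddSubgroup R :=
  AddSubgroup.closure {z | ∃ x ∈ D, ∃ y ∈ D, (2 : ℤ) • z = x * y + y * x}

/-- the derived series -/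
def Dj (J : AddSubgroup R) : ℕ → AddSubgroup R
  | 0 => J
  | i + 1 => jsq (Dj J i)

theorem jsq_map {S : Type u} [Ring S] (f : R →+* S) (D : AddSubgroup R) :
    (jsq D).map f.toAddMonoidHom ≤ jsq (D.map f.toAddMonoidHom) := by
  unfold jsq
  rw [AddMonoidHom.map_closure]
  refine AddSubgroup.closure_mono ?_
  rintro w ⟨z, ⟨x, hx, y, hy, e⟩, rfl⟩
  refine ⟨f x, ⟨x, hx, rfl⟩, f y, ⟨y, hy, rfl⟩, ?_⟩
  show (2 : ℤ) • f z = _
  rw [← map_zsmul, e, map_add, map_mul, map_mul]

theorem jsq_mono {D E : AddSubgroup R} (h : D ≤ E) : jsq D ≤ jsq E := by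
  refine AddSubgroup.closure_mono ?_
  rintro w ⟨x, hx, y, hy, e⟩
  exact ⟨x, h hx, y, h hy, e⟩

theorem Dj_map {S : Type u} [Ring S] (f : R →+* S) (J : AddSubgroup R) (i : ℕ) :
    (Dj J i).map f.toAddMonoidHom ≤ Dj (J.map f.toAddMonoidHom) i := by
  induction i with
  | zero => exact le_rfl
  | succ i ih => exact (jsq_map f _).trans (jsq_mono ih)

theorem Dj_add (J : AddSubgroup R) (i k : ℕ) : Dj J (i + k) = Dj (Dj J i) k := by
  induction k with
  | zero => rfl
  | succ k ih =>
    show jsq (Dj J (i + k)) = jsq (Dj (Dj J i) k)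
    rw [ih]

theorem Dj_mono {J K : AddSubgroup R} (h : J ≤ K) (i : ℕ) : Dj J i ≤ Dj K i := by
  induction i with
  | zero => exact h
  | succ i ih => exact jsq_mono ih

/-- subgroup spanned by products of `m` elements -/
def PP (B : AddSubgroup R) (m : ℕ) : AddSubgroup R :=
  AddSubgroup.closure {w | ∃ l : List R, l.length = m ∧ (∀ b ∈ l, b ∈ B) ∧ w = l.prod}

theorem PP_mul {B : AddSubgroup R} {m k : ℕ} {a b : R} (ha : a ∈ PP B m)
    (hb : b ∈ PP B k) : a * b ∈ PP B (m + k) := by
  have h1 : ∀ l : List R, l.length = m → (∀ b ∈ l, b ∈ B) → l.prod * b ∈ PP B (m + k) := by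
    intro l hl hlB
    have h2 : PP B k ≤ (PP B (m + k)).comap (AddMonoidHom.mulLeft l.prod) := by
      refine (AddSubgroup.closure_le _).2 ?_
      rintro w ⟨l', hl', hlB', rfl⟩
      refine AddSubgroup.subset_closure ⟨l ++ l', by rw [List.length_append, hl, hl'], ?_, ?_⟩
      · intro c hc
        rcases List.mem_append.1 hc with hc | hc
        · exact hlB c hc
        · exact hlB' c hc
      · show l.prod * l'.prod = _
        rw [List.prod_append]
    exact h2 hb
  have h3 : PP B m ≤ (PP B (m + k)).comap (AddMonoidHom.mulRight b) := by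
    refine (AddSubgroup.closure_le _).2 ?_
    rintro w ⟨l, hl, hlB, rfl⟩
    exact h1 l hl hlB
  exact h3 ha

/-- the derived series of a nilpotent group of elements -/
theorem Dj_nilp {B : AddSubgroup R} {m k : ℕ} (hk : m ≤ 2 ^ k)
    (hB : ∀ l : List R, l.length = m → (∀ b ∈ l, b ∈ B) → l.prod = 0)
    (h2 : ∀ r : R, (2 : ℤ) • r = 0 → r = 0) : Dj B k = ⊥ := by
  have key : ∀ i, Dj B i ≤ sat 2 (PP B (2 ^ i)) := by
    intro i
    induction i with
    | zero =>
      intro x hx
      refine le_sat _ _ (AddSubgroup.subset_closure ⟨[x], rfl, ?_, by simp⟩)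
      intro b hb
      rw [List.mem_singleton] at hb
      rw [hb]
      exact hx
    | succ i ih =>
      refine (AddSubgroup.closure_le _).2 ?_
      rintro z ⟨x, hx, y, hy, e⟩
      obtain ⟨a, ha⟩ := ih hx
      obtain ⟨b, hb⟩ := ih hy
      refine ⟨a + b + 1, ?_⟩
      have h3 : ((2 : ℤ) ^ (a + b + 1)) • z =
          ((2 : ℤ) ^ a • x) * ((2 : ℤ) ^ b • y) + ((2 : ℤ) ^ b • y) * ((2 : ℤ) ^ a • x) := by
        rw [pow_succ, mul_smul, e, smul_add, smul_mul_smul_comm, smul_mul_smul_comm,
          ← pow_add, ← pow_add, add_comm b a]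
      rw [h3]
      have e : 2 ^ (i + 1) = 2 ^ i + 2 ^ i := by ring
      rw [e]
      exact (PP _ _).add_mem (PP_mul ha hb) (PP_mul hb ha)
  rw [eq_bot_iff]
  intro x hx
  obtain ⟨j, hj⟩ := key k hx
  have h4 : PP B (2 ^ k) = ⊥ := by
    rw [eq_bot_iff]
    refine (AddSubgroup.closure_le _).2 ?_
    rintro w ⟨l, hl, hlB, rfl⟩
    have h5 := hB (l.take m) (by rw [List.length_take]; omega)
      (fun b hb => hlB b (List.mem_of_mem_take hb))
    show l.prod = 0
    rw [← List.take_append_drop m l, List.prod_append, h5, zero_mul]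
  rw [h4, AddSubgroup.mem_bot] at hj
  exact tf_pow h2 j hj

end Pool.Agent.H.MP_e16c79_al.SP
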