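import Pool.Agent.H.MP_e16c79_al.SP.Check

/-!
# MP_e16c79_al: running the checker
-/

set_option autoImplicit false

namespace Pool.Agent.H.MP_e16c79_al.SP

open Finset

variable {R : Type*} [Ring R]

/-- the code of a word -/
def enc : List ℕ → ℕ
  | [] => 0
  | c :: w => enc w * 32 + c

/-- the word of a code -/
def dec : ℕ → ℕ → List ℕ
  | 0, _ => []
  | f + 1, N => if N = 0 then [] else (N % 32) :: dec f (N / 32)

theorem dec_enc (f : ℕ) (w : List ℕ) (h : w.length ≤ f) (hw : ∀ c ∈ w, 0 < c ∧ c < 32) :
    dec f (enc w) = w := by
  induction f generalizing w with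
  | zero =>
    have : w = [] := List.length_eq_zero_iff.1 (by omega)
    subst this
    rfl
  | succ f ih =>
    match w with
    | [] => rfl
    | c :: w =>
      obtain ⟨h1, h2⟩ := hw c (by simp)
      unfold dec enc
      rw [if_neg (by omega)]
      have e1 : (enc w * 32 + c) % 32 = c := by omega
      have e2 : (enc w * 32 + c) / 32 = enc w := by omega
      rw [e1, e2, ih w (by simpa using h) (fun d hd => hw d (by simp [hd]))]

variable (n : ℕ) (X : Fin 5 → R)

/-- the value of a key -/
def sk (N : ℕ) : R := ((n : ℤ) ^ (N % 16)) • ev n X (dec 12 (N / 16))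

/-- the value of a state -/
def sem : List (ℕ × ℤ) → R
  | [] => 0
  | (N, c) :: l => c • sk n X N + sem l

/-- zero test -/
def isz : ℤ → Bool
  | Int.ofNat m => Nat.beq m 0
  | Int.negSucc _ => false

theorem isz_iff {z : ℤ} (h : isz z = true) : z = 0 := by
  match z with
  | Int.ofNat m =>
    have : m = 0 := Nat.eq_of_beq_eq_true h
    subst this
    rfl
  | Int.negSucc _ =>
    unfold isz at h
    cases h

/-- adding a term to a state -/
def ins (N : ℕ) (c : ℤ) : List (ℕ × ℤ) → List (ℕ × ℤ)
  | [] => [(N, c)]
  | (M, d) :: l =>
    bif Nat.beq M N then (bif isz (d + c) then l else (M, d + c) :: l)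
    else (bif Nat.blt N M then (N, c) :: (M, d) :: l else (M, d) :: ins N c l)

variable {n X}

theorem sem_ins (N : ℕ) (c : ℤ) (l : List (ℕ × ℤ)) :
    sem n X (ins N c l) = c • sk n X N + sem n X l := by
  induction l with
  | nil => rfl
  | cons a l ih =>
    obtain ⟨M, d⟩ := a
    unfold ins
    by_cases h1 : M = N
    · subst h1
      rw [beq_t, cond_true]
      cases h2 : isz (d + c) with
      | true =>
        rw [cond_true]
        have h3 := isz_iff h2
        show sem n X l = c • sk n X M + (d • sk n X M + sem n X l)
        rw [← add_assoc, ← add_smul, add_comm c d, h3, zero_smul, zero_add]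
      | false =>
        rw [cond_false]
        show (d + c) • sk n X M + sem n X l = c • sk n X M + (d • sk n X M + sem n X l)
        rw [add_smul]
        abel
    · rw [beq_f h1, cond_false]
      cases Nat.blt N M with
      | true => rfl
      | false =>
        rw [cond_false]
        show d • sk n X M + sem n X (ins N c l) = c • sk n X N + (d • sk n X M + sem n X l)
        rw [ih]
        abel

/-- swaps -/
def swl : List ℕ → List ℕ → List ℕ
  | [], w => w
  | k :: ks, w => swl ks (w.map (sw k))

/-- the condition for the swaps -/
def swok (w : List ℕ) : List ℕ → Bool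
  | [] => true
  | k :: ks => bif Nat.blt k 5 then (bif mb (4 * k + 3) w then false else swok w ks) else false

theorem sw_mod {k c : ℕ} (h : c < 20 ∧ c % 4 ≠ 0) (hk : k < 5) :
    sw k c < 20 ∧ sw k c % 4 ≠ 0 := by
  unfold sw
  by_cases h1 : c = 4 * k + 1
  · rw [h1, beq_t, cond_true]
    omega
  · rw [beq_f h1, cond_false]
    by_cases h2 : c = 4 * k + 2
    · rw [h2, beq_t, cond_true]
      omega
    · rw [beq_f h2, cond_false]
      exact h

theorem sw_block {k j c : ℕ} (h : c ≠ 4 * j + 3) : sw k c ≠ 4 * j + 3 := by
  unfold sw
  by_cases h1 : c = 4 * k + 1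
  · rw [h1, beq_t, cond_true]
    omega
  · rw [beq_f h1, cond_false]
    by_cases h2 : c = 4 * k + 2
    · rw [h2, beq_t, cond_true]
      omega
    · rw [beq_f h2, cond_false]
      exact h

theorem swl_ev (ks : List ℕ) (w : List ℕ) (hw : ∀ c ∈ w, c < 20 ∧ c % 4 ≠ 0)
    (h : ∀ k ∈ ks, k < 5 ∧ ∀ c ∈ w, c ≠ 4 * k + 3) :
    ev n X (swl ks w) = ev n X w ∧ (∀ c ∈ swl ks w, c < 20 ∧ c % 4 ≠ 0) ∧
      (swl ks w).length = w.length := by
  induction ks generalizing w with
  | nil => exact ⟨rfl, hw, rfl⟩
  | cons k ks ih =>
    obtain ⟨hk, hk2⟩ := h k (by simp)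
    have h1 := ih (w.map (sw k)) (by
      intro c hc
      obtain ⟨d, hd, rfl⟩ := List.mem_map.1 hc
      exact sw_mod (hw d hd) hk) (by
      intro j hj
      refine ⟨(h j (by simp [hj])).1, ?_⟩
      intro c hc
      obtain ⟨d, hd, rfl⟩ := List.mem_map.1 hc
      exact sw_block ((h j (by simp [hj])).2 d hd))
    refine ⟨h1.1.trans (ev_sw hk (fun c hc => (hw c hc).1) (fun c hc => (hw c hc).2) hk2), h1.2.1,
      ?_⟩
    rw [← List.length_map (f := sw k) (as := w)]
    exact h1.2.2

theorem swok_iff {w ks : List ℕ} (h : swok w ks = true) :
    ∀ k ∈ ks, k < 5 ∧ ∀ c ∈ w, c ≠ 4 * k + 3 := by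
  induction ks with
  | nil => simp
  | cons k ks ih =>
    unfold swok at h
    cases h1 : Nat.blt k 5 with
    | false =>
      rw [h1, cond_false] at h
      cases h
    | true =>
      rw [h1, cond_true] at h
      cases h2 : mb (4 * k + 3) w with
      | true =>
        rw [h2, cond_true] at h
        cases h
      | false =>
        rw [h2, cond_false] at h
        intro j hj
        rcases List.mem_cons.1 hj with rfl | hj
        · refine ⟨Nat.le_of_ble_eq_true h1, ?_⟩
          rintro c hc rfl
          rw [mb_iff.2 hc] at h2
          cases h2
        · exact ih h j hj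

/-- the coded words of a relation; `none` if the swaps are wrong -/
def codes (r : Rl) : List (List ℕ) → List (List ℕ) → Option (List ℕ)
  | [], [] => some []
  | t :: ts, ks :: kss =>
    bif swok (wd r t) ks then
      (match codes r ts kss with
        | none => none
        | some l => some (enc (swl ks (wd r t)) :: l))
    else none
  | _, _ => none

/-- adding the multiples of a coded word -/
def insc (N : ℕ) (b : ℤ) (i : ℕ) : List (ℕ × ℤ) → List (ℕ × ℤ) → List (ℕ × ℤ)
  | [], st => st
  | (j, c) :: cs, st => insc N b i cs (ins (N * 16 + (j + i)) (c * b) st)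

/-- adding the multiples of all coded words -/
def insl (cs : List (ℕ × ℤ)) : List ℕ → List (ℕ × ℤ) → List (ℕ × ℤ)
  | [], st => st
  | N :: l, st => insl cs l (insc N 1 0 cs st)

/-- small powers -/
def jok : List (ℕ × ℤ) → Bool
  | [] => true
  | (j, _) :: cs => bif Nat.blt j 15 then jok cs else false

/-- one step -/
def step (r : Rl) (st : List (ℕ × ℤ)) : Option (List (ℕ × ℤ)) :=
  bif Nat.blt r.k 5 then (bif okw r.k r.p then (bif okw r.k r.u then (bif okw r.k r.s then
  (bif Nat.blt (r.p.length + r.u.length + r.s.length) 11 then (bif jok r.c then
  (match codes r (forms r.u r.ty) r.m with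
    | none => none
    | some l =>
      bif noB r then some (insl r.c l st)
      else (bif isB r then
        some (insc (enc (bd r)) (-((forms r.u r.ty).length : ℤ)) 1 r.c (insl r.c l st)) else none))
  else none) else none) else none) else none) else none) else none

/-- all steps -/
def run : List Rl → List (ℕ × ℤ) → Option (List (ℕ × ℤ))
  | [], st => some st
  | r :: rs, st =>
    match step r st with
    | none => none
    | some st' => run rs st'

/-- the coefficient -/
def cf' (n : ℕ) : List (ℕ × ℤ) → ℤ
  | [] => 0
  | (j, c) :: cs => c * (n : ℤ) ^ j + cf' n cs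

theorem sem_insc (N : ℕ) (b : ℤ) (i : ℕ) (cs : List (ℕ × ℤ)) (hj : jok cs = true) (hi : i ≤ 1)
    (st : List (ℕ × ℤ)) :
    sem n X (insc N b i cs st) = (cf' n cs * b * (n : ℤ) ^ i) • ev n X (dec 12 N) +
      sem n X st := by
  induction cs generalizing st with
  | nil => simp [insc, cf']
  | cons a cs ih =>
    obtain ⟨j, c⟩ := a
    unfold jok at hj
    cases h1 : Nat.blt j 15 with
    | false =>
      rw [h1, cond_false] at hj
      cases hj
    | true =>
      rw [h1, cond_true] at hj
      have h2 : j < 15 := Nat.le_of_ble_eq_true h1
      unfold insc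
      rw [ih hj, sem_ins]
      have e1 : (N * 16 + (j + i)) % 16 = j + i := by omega
      have e2 : (N * 16 + (j + i)) / 16 = N := by omega
      unfold sk
      rw [e1, e2, cf', ← add_assoc, ← mul_smul, ← add_smul]
      congr 2
      rw [pow_add]
      ring

theorem sem_insl (cs : List (ℕ × ℤ)) (hj : jok cs = true) (l : List ℕ) (st : List (ℕ × ℤ)) :
    sem n X (insl cs l st) = cf' n cs • (l.map (fun N => ev n X (dec 12 N))).sum +
      sem n X st := by
  induction l generalizing st with
  | nil => simp [insl]
  | cons N l ih =>
    unfold insl
    rw [ih, sem_insc N 1 0 cs hj (by omega), List.map_cons, List.sum_cons, smul_add, mul_one,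
      pow_zero, mul_one]
    abel

theorem forms_len {u : List ℕ} {ty : ℕ} {t : List ℕ} (ht : t ∈ forms u ty) :
    t.length = u.length := by
  match u, ty with
  | [], _ =>
    simp [forms] at ht
    subst ht
    simp
  | [a], _ =>
    simp [forms] at ht
    subst ht
    simp
  | [a, b], _ =>
    simp [forms] at ht
    rcases ht with rfl | rfl <;> simp
  | [a, b, c], _ =>
    simp [forms] at ht
    rcases ht with rfl | rfl <;> simp
  | [a, b, c, d], 0 =>
    simp [forms] at ht
    rcases ht with rfl | rfl | rfl | rfl <;> simp
  | [a, b, c, d], t + 1 =>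
    simp [forms] at ht
    rcases ht with rfl | rfl | rfl | rfl <;> simp
  | [a, b, c, d, f], 0 =>
    simp [forms] at ht
    rcases ht with rfl | rfl | rfl | rfl <;> simp
  | [a, b, c, d, f], t + 1 =>
    simp [forms] at ht
    rcases ht with rfl | rfl | rfl | rfl <;> simp
  | _ :: _ :: _ :: _ :: _ :: _ :: _, _ =>
    simp [forms] at ht

theorem codes_sum (r : Rl) (hp : okw r.k r.p = true) (hu : okw r.k r.u = true)
    (hs : okw r.k r.s = true) (hk : r.k < 5)
    (hl : r.p.length + r.u.length + r.s.length < 11) (ts : List (List ℕ))
    (hts : ∀ t ∈ ts, t ∈ forms r.u r.ty) (kss : List (List ℕ)) (l : List ℕ)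
    (h : codes r ts kss = some l) :
    (l.map (fun N => ev n X (dec 12 N))).sum = (ts.map (fun t => ev n X (wd r t))).sum := by
  induction ts generalizing kss l with
  | nil =>
    match kss with
    | [] =>
      unfold codes at h
      cases h
      rfl
    | _ :: _ =>
      unfold codes at h
      cases h
  | cons t ts ih =>
    match kss with
    | [] =>
      unfold codes at h
      cases h
    | ks :: kss =>
      unfold codes at h
      cases h1 : swok (wd r t) ks with
      | false =>
        rw [h1, cond_false] at h
        cases h
      | true =>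
        rw [h1, cond_true] at h
        cases h2 : codes r ts kss with
        | none =>
          rw [h2] at h
          cases h
        | some l' =>
          rw [h2] at h
          cases h
          rw [List.map_cons, List.sum_cons, List.map_cons, List.sum_cons,
            ih (fun t' ht' => hts t' (by simp [ht'])) kss l' h2]
          congr 1
          rw [okw_iff] at hp hu hs
          have ht := hts t (by simp)
          have hw : ∀ c ∈ wd r t, c < 20 ∧ c % 4 ≠ 0 := by
            intro c hc
            unfold wd at hc
            rcases List.mem_append.1 hc with hc | hc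
            · exact ⟨(hp c hc).1, (hp c hc).2.1⟩
            rcases List.mem_cons.1 hc with rfl | hc
            · omega
            rcases List.mem_append.1 hc with hc | hc
            · have := hu c (forms_mem ht c hc)
              exact ⟨this.1, this.2.1⟩
            rcases List.mem_cons.1 hc with rfl | hc
            · omega
            · exact ⟨(hs c hc).1, (hs c hc).2.1⟩
          obtain ⟨k1, k2, k3⟩ := swl_ev (n := n) (X := X) ks (wd r t) hw (swok_iff h1)
          rw [dec_enc 12 _ ?_ ?_, k1]
          · rw [k3]
            unfold wd
            rw [List.length_append, List.length_cons, List.length_append, List.length_cons,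
              forms_len ht]
            omega
          · intro c hc
            have := k2 c hc
            omega

/-- one step preserves the value -/
theorem step_sem {J : AddSubgroup R} (h : SData n J) (hn : 2 ≤ n) (hX : ∀ k, X k ∈ J) {r : Rl}
    {st st' : List (ℕ × ℤ)} (hs : step r st = some st') : sem n X st' = sem n X st := by
  unfold step at hs
  cases h1 : Nat.blt r.k 5 with
  | false =>
    rw [h1, cond_false] at hs
    cases hs
  | true =>
  rw [h1, cond_true] at hs
  cases h2 : okw r.k r.p with
  | false =>
    rw [h2, cond_false] at hs
    cases hs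
  | true =>
  rw [h2, cond_true] at hs
  cases h3 : okw r.k r.u with
  | false =>
    rw [h3, cond_false] at hs
    cases hs
  | true =>
  rw [h3, cond_true] at hs
  cases h4 : okw r.k r.s with
  | false =>
    rw [h4, cond_false] at hs
    cases hs
  | true =>
  rw [h4, cond_true] at hs
  cases h5 : Nat.blt (r.p.length + r.u.length + r.s.length) 11 with
  | false =>
    rw [h5, cond_false] at hs
    cases hs
  | true =>
  rw [h5, cond_true] at hs
  cases h6 : jok r.c with
  | false =>
    rw [h6, cond_false] at hs
    cases hs
  | true =>
  rw [h6, cond_true] at hs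
  have hk : r.k < 5 := Nat.le_of_ble_eq_true h1
  have hl : r.p.length + r.u.length + r.s.length < 11 := Nat.le_of_ble_eq_true h5
  cases h7 : codes r (forms r.u r.ty) r.m with
  | none =>
    rw [h7] at hs
    cases hs
  | some l =>
    rw [h7] at hs
    have h8 := codes_sum (n := n) (X := X) r h2 h3 h4 hk hl _ (fun _ ht => ht) _ _ h7
    dsimp only at hs
    cases h9 : noB r with
    | true =>
      rw [h9, cond_true] at hs
      cases hs
      rw [sem_insl _ h6, h8, sound0 h hn hX hk h2 h3 h4 h9, smul_zero, zero_add]
    | false =>
      rw [h9, cond_false] at hs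
      cases h10 : isB r with
      | false =>
        rw [h10, cond_false] at hs
        cases hs
      | true =>
        rw [h10, cond_true] at hs
        cases hs
        rw [sem_insc _ _ _ _ h6 (by omega), sem_insl _ h6, h8, sound1 h hn hX hk h2 h3 h4 h10]
        have e1 : dec 12 (enc (bd r)) = bd r := by
          refine dec_enc 12 _ ?_ ?_
          · unfold bd
            rw [List.length_append, List.length_cons, List.length_map, List.length_map]
            omega
          · rw [okw_iff] at h2 h4
            have hb : ∀ c, c < 20 ∧ c % 4 ≠ 0 → 0 < bl r.u c ∧ bl r.u c < 32 := by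
              intro c hc
              unfold bl
              cases Nat.beq (c % 4) 2 with
              | true =>
                rw [cond_true]
                cases mb (c - 1) r.u with
                | true =>
                  rw [cond_true]
                  omega
                | false =>
                  rw [cond_false]
                  omega
              | false =>
                rw [cond_false]
                omega
            intro c hc
            unfold bd at hc
            rcases List.mem_append.1 hc with hc | hc
            · obtain ⟨d, hd, rfl⟩ := List.mem_map.1 hc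
              exact hb d ⟨(h2 d hd).1, (h2 d hd).2.1⟩
            rcases List.mem_cons.1 hc with rfl | hc
            · omega
            · obtain ⟨d, hd, rfl⟩ := List.mem_map.1 hc
              exact hb d ⟨(h4 d hd).1, (h4 d hd).2.1⟩
        rw [e1, ← mul_smul, ← add_assoc, ← add_smul]
        have e2 : cf' n r.c * -((forms r.u r.ty).length : ℤ) * (n : ℤ) ^ 1 +
            cf' n r.c * (((forms r.u r.ty).length : ℤ) * n) = 0 := by ring
        rw [e2, zero_smul, zero_add]

/-- THE CHECKER IS SOUND. -/
theorem run_sem {J : AddSubgroup R} (h : SData n J) (hn : 2 ≤ n) (hX : ∀ k, X k ∈ J)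
    (rs : List Rl) (st st' : List (ℕ × ℤ)) (hs : run rs st = some st') :
    sem n X st' = sem n X st := by
  induction rs generalizing st with
  | nil =>
    unfold run at hs
    cases hs
    rfl
  | cons r rs ih =>
    unfold run at hs
    cases h1 : step r st with
    | none =>
      rw [h1] at hs
      cases hs
    | some st1 =>
      rw [h1] at hs
      rw [ih st1 hs, step_sem h hn hX h1]

/-- equality test -/
def eqs : List (ℕ × ℤ) → List (ℕ × ℤ) → Bool
  | [], [] => true
  | (N, c) :: l, (M, d) :: l' => bif Nat.beq N M then (bif isz (c - d) then eqs l l' else false)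
    else false
  | _, _ => false

theorem eqs_iff {l l' : List (ℕ × ℤ)} (h : eqs l l' = true) : l = l' := by
  induction l generalizing l' with
  | nil =>
    match l' with
    | [] => rfl
    | _ :: _ =>
      unfold eqs at h
      cases h
  | cons a l ih =>
    obtain ⟨N, c⟩ := a
    match l' with
    | [] =>
      unfold eqs at h
      cases h
    | (M, d) :: l' =>
      unfold eqs at h
      cases h1 : Nat.beq N M with
      | false =>
        rw [h1, cond_false] at h
        cases h
      | true =>
        rw [h1, cond_true] at h
        cases h2 : isz (c - d) with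
        | false =>
          rw [h2, cond_false] at h
          cases h
        | true =>
          rw [h2, cond_true] at h
          have h3 := isz_iff h2
          have h4 : c = d := by omega
          rw [Nat.eq_of_beq_eq_true h1, h4, ih h]

/-- a part of the check -/
def chk2 (rs : List Rl) (st tgt : List (ℕ × ℤ)) : Bool :=
  match run rs st with
  | none => false
  | some st' => eqs st' tgt

theorem chk2_sem {J : AddSubgroup R} (h : SData n J) (hn : 2 ≤ n) (hX : ∀ k, X k ∈ J)
    (rs : List Rl) (st tgt : List (ℕ × ℤ)) (hc : chk2 rs st tgt = true) :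
    sem n X tgt = sem n X st := by
  unfold chk2 at hc
  cases h1 : run rs st with
  | none =>
    rw [h1] at hc
    cases hc
  | some st' =>
    rw [h1] at hc
    rw [← eqs_iff hc, run_sem h hn hX rs st st' h1]

end Pool.Agent.H.MP_e16c79_al.SP
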